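import Mathlib

/-!
Finite level: a random function of `m` sources is good for all targets with small fibres.
-/

set_option maxHeartbeats 1000000

namespace Pool.Agent.Q302.HU

open Finset
open scoped Classical

/-- nested tuples -/
def Tup (A : Type) : ℕ → Type
  | 0 => Unit
  | (j + 1) => A × Tup A j

noncomputable instance instFintypeTup (A : Type) [Fintype A] : (j : ℕ) → Fintype (Tup A j)
  | 0 => inferInstanceAs (Fintype Unit)
  | (j + 1) => @instFintypeProd A (Tup A j) _ (instFintypeTup A j)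

/-- `Big Q j P`: there are at least `Q` many `a₁` such that there are at least `Q` many `a₂` ...
such that `P (a₁, a₂, ...)`. -/
noncomputable def Big {A : Type} [Fintype A] (Q : ℕ) : (j : ℕ) → (Tup A j → Prop) → Prop
  | 0, P => P ()
  | (j + 1), P => Q ≤ (univ.filter fun a : A => Big Q j (fun w => P (a, w))).card

theorem dens_step {A Φ : Type} [Fintype A] [Fintype Φ] (E : A → Finset Φ) (Q : ℕ) (δ : ℝ)
    (hδ : 0 ≤ δ) (hE : ∀ a, ((E a).card : ℝ) ≤ δ * Fintype.card Φ) :
    ((univ.filter (fun φ : A → Φ => Q ≤ (univ.filter fun a => φ a ∈ E a).card)).card : ℝ)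
      ≤ (Fintype.card A * δ) ^ Q * Fintype.card (A → Φ) := by
  have hsub : (univ.filter (fun φ : A → Φ => Q ≤ (univ.filter fun a => φ a ∈ E a).card)) ⊆
      (powersetCard Q (univ : Finset A)).biUnion
        (fun S => Fintype.piFinset (fun a => if a ∈ S then E a else univ)) := by
    intro φ hφ
    rw [mem_filter] at hφ
    obtain ⟨S, hS, hcard⟩ := exists_subset_card_eq hφ.2
    rw [mem_biUnion]
    refine ⟨S, mem_powersetCard.2 ⟨subset_univ _, hcard⟩, ?_⟩
    rw [Fintype.mem_piFinset]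
    intro a
    split_ifs with h
    · exact (mem_filter.1 (hS h)).2
    · exact mem_univ _
  have h1 : ((univ.filter (fun φ : A → Φ => Q ≤ (univ.filter fun a => φ a ∈ E a).card)).card : ℝ)
      ≤ ∑ S ∈ powersetCard Q (univ : Finset A),
        ((Fintype.piFinset (fun a => if a ∈ S then E a else univ)).card : ℝ) := by
    exact_mod_cast (card_le_card hsub).trans card_biUnion_le
  refine h1.trans ?_
  have h2 : ∀ S ∈ powersetCard Q (univ : Finset A),
      ((Fintype.piFinset (fun a => if a ∈ S then E a else univ)).card : ℝ)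
        ≤ δ ^ Q * (Fintype.card Φ : ℝ) ^ Fintype.card A := by
    intro S hS
    rw [Fintype.card_piFinset, Nat.cast_prod]
    calc ∏ a : A, (((if a ∈ S then E a else univ : Finset Φ).card : ℕ) : ℝ)
        ≤ ∏ a : A, ((if a ∈ S then δ else 1) * (Fintype.card Φ : ℝ)) := by
          apply prod_le_prod (fun _ _ => Nat.cast_nonneg _)
          intro a _
          split_ifs with h
          · exact hE a
          · simp
      _ = δ ^ Q * (Fintype.card Φ : ℝ) ^ Fintype.card A := by
          rw [prod_mul_distrib, prod_const, card_univ]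
          congr 1
          rw [prod_ite_mem, univ_inter, prod_const, (mem_powersetCard.1 hS).2]
  calc ∑ S ∈ powersetCard Q (univ : Finset A),
        ((Fintype.piFinset (fun a => if a ∈ S then E a else univ)).card : ℝ)
      ≤ ∑ S ∈ powersetCard Q (univ : Finset A), δ ^ Q * (Fintype.card Φ : ℝ) ^ Fintype.card A :=
        sum_le_sum h2
    _ = ((Fintype.card A).choose Q : ℝ) * (δ ^ Q * (Fintype.card Φ : ℝ) ^ Fintype.card A) := by
        rw [sum_const, card_powersetCard, card_univ, nsmul_eq_mul]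
    _ ≤ ((Fintype.card A : ℝ) ^ Q) * (δ ^ Q * (Fintype.card Φ : ℝ) ^ Fintype.card A) := by
        apply mul_le_mul_of_nonneg_right _ (by positivity)
        exact_mod_cast Nat.choose_le_pow _ _
    _ = (Fintype.card A * δ) ^ Q * Fintype.card (A → Φ) := by
        rw [Fintype.card_fun, mul_pow]
        push_cast
        ring

/-- the densities -/
noncomputable def pd (α δ : ℝ) (Q : ℕ) : ℕ → ℝ
  | 0 => δ
  | (j + 1) => (α * pd α δ Q j) ^ Q

theorem pd_nonneg {α δ : ℝ} (hα : 0 ≤ α) (hδ : 0 ≤ δ) (Q : ℕ) : ∀ j, 0 ≤ pd α δ Q j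
  | 0 => hδ
  | (j + 1) => pow_nonneg (mul_nonneg hα (pd_nonneg hα hδ Q j)) Q

theorem dens_big {A L : Type} [Fintype A] [Fintype L] (Q : ℕ) (δ : ℝ) (hδ : 0 ≤ δ) :
    ∀ (j : ℕ) (t : Tup A j → Finset L), (∀ w, ((t w).card : ℝ) ≤ δ * Fintype.card L) →
    ((univ.filter (fun B : Tup A j → L => Big Q j (fun w => B w ∈ t w))).card : ℝ)
      ≤ pd (Fintype.card A) δ Q j * Fintype.card (Tup A j → L) := by
  intro j
  induction j with
  | zero =>
    intro t ht
    have e : (univ.filter (fun B : Tup A 0 → L => Big Q 0 (fun w => B w ∈ t w))).card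
        ≤ (t ()).card := by
      refine card_le_card_of_injOn (fun B => B ()) ?_ ?_
      · intro B hB
        exact (mem_filter.1 hB).2
      · intro B _ B' _ h
        funext u
        exact h
    have e2 : Fintype.card (Tup A 0 → L) = Fintype.card L := by
      rw [Fintype.card_fun]
      have : Fintype.card (Tup A 0) = 1 := by
        have : Unique (Tup A 0) := inferInstanceAs (Unique Unit)
        exact Fintype.card_unique
      rw [this, pow_one]
    rw [e2]
    calc ((univ.filter (fun B : Tup A 0 → L => Big Q 0 (fun w => B w ∈ t w))).card : ℝ)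
        ≤ ((t ()).card : ℝ) := by exact_mod_cast e
      _ ≤ _ := ht ()
  | succ j ih =>
    intro t ht
    have hstep := dens_step (A := A) (Φ := Tup A j → L)
      (fun a => univ.filter (fun φ : Tup A j → L => Big Q j (fun w => φ w ∈ t (a, w)))) Q
      (pd (Fintype.card A) δ Q j) (pd_nonneg (by positivity) hδ Q j)
      (fun a => ih (fun w => t (a, w)) (fun w => ht (a, w)))
    have e : (univ.filter (fun B : Tup A (j + 1) → L => Big Q (j + 1) (fun w => B w ∈ t w))).card
        ≤ (univ.filter (fun φ : A → (Tup A j → L) => Q ≤ (univ.filter fun a => φ a ∈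
          univ.filter (fun φ : Tup A j → L => Big Q j (fun w => φ w ∈ t (a, w)))).card)).card := by
      refine card_le_card_of_injOn (fun B => fun a w => B (a, w)) ?_ ?_
      · intro B hB
        have hB2 := (mem_filter.1 hB).2
        simp only [Big] at hB2
        simp only [coe_filter, Set.mem_ofPred_eq, mem_univ, true_and, mem_filter]
        exact hB2
      · intro B _ B' _ h
        funext ⟨a, w⟩
        exact congrFun (congrFun h a) w
    have e2 : Fintype.card (Tup A (j + 1) → L) = Fintype.card (A → (Tup A j → L)) :=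
      Fintype.card_congr (Equiv.curry A (Tup A j) L)
    rw [e2]
    have e' : ((univ.filter (fun B : Tup A (j + 1) → L =>
        Big Q (j + 1) (fun w => B w ∈ t w))).card : ℝ) ≤
        ((univ.filter (fun φ : A → (Tup A j → L) => Q ≤ (univ.filter fun a => φ a ∈
          univ.filter (fun φ : Tup A j → L => Big Q j (fun w => φ w ∈ t (a, w)))).card)).card : ℝ) :=
      Nat.cast_le.2 e
    have hpd : pd (Fintype.card A) δ Q (j + 1) = (Fintype.card A * pd (Fintype.card A) δ Q j) ^ Q :=
      rfl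
    rw [hpd]
    refine le_trans e' (le_trans (le_of_eq ?_) hstep)
    congr!

theorem pd_bound (α δ : ℝ) (Q' : ℕ) (hα : 1 ≤ α) (hQ : 1 ≤ Q') (hδ : 0 ≤ δ)
    (hαδ : δ ≤ (α⁻¹) ^ 2) : ∀ j, pd α δ (2 * Q') j ≤ (α⁻¹) ^ (2 * Q' ^ j) := by
  intro j
  have hα0 : 0 < α := one_pos.trans_le hα
  have hu0 : 0 < α⁻¹ := inv_pos.2 hα0
  have hu1 : α⁻¹ ≤ 1 := inv_le_one_of_one_le₀ hα
  induction j with
  | zero => simpa [pd] using hαδ
  | succ j ih =>
    have hQj : 1 ≤ Q' ^ j := Nat.one_le_pow _ _ hQ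
    have h1 : α * pd α δ (2 * Q') j ≤ (α⁻¹) ^ (2 * Q' ^ j - 1) := by
      calc α * pd α δ (2 * Q') j ≤ α * (α⁻¹) ^ (2 * Q' ^ j) :=
            mul_le_mul_of_nonneg_left ih hα0.le
        _ = (α⁻¹) ^ (2 * Q' ^ j - 1) := by
            obtain ⟨u, hu⟩ : ∃ u, 2 * Q' ^ j = u + 1 := ⟨2 * Q' ^ j - 1, by omega⟩
            rw [hu, Nat.add_sub_cancel, pow_succ]
            field_simp
    calc pd α δ (2 * Q') (j + 1) = (α * pd α δ (2 * Q') j) ^ (2 * Q') := rfl
      _ ≤ ((α⁻¹) ^ (2 * Q' ^ j - 1)) ^ (2 * Q') :=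
          pow_le_pow_left₀ (mul_nonneg hα0.le (pd_nonneg hα0.le hδ _ _)) h1 _
      _ = (α⁻¹) ^ ((2 * Q' ^ j - 1) * (2 * Q')) := by rw [← pow_mul]
      _ ≤ (α⁻¹) ^ (2 * Q' ^ (j + 1)) := by
          apply pow_le_pow_of_le_one hu0.le hu1
          rw [pow_succ]
          have : Q' ^ j ≤ 2 * Q' ^ j - 1 := by omega
          calc 2 * (Q' ^ j * Q') = Q' ^ j * (2 * Q') := by ring
            _ ≤ (2 * Q' ^ j - 1) * (2 * Q') := Nat.mul_le_mul_right _ this

/-- The level lemma. -/
theorem level {A K L : Type} [Fintype A] [Fintype K] [Fintype L] (m Q' D : ℕ)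
    (hA : 2 ≤ Fintype.card A) (hQ : 1 ≤ Q') (hL : 0 < Fintype.card L)
    (hD : Fintype.card A ^ 2 * D ≤ Fintype.card L)
    (hm : Fintype.card L * Fintype.card K < 2 * Q' ^ m) (G : Tup A m → K) :
    ∃ B : Tup A m → L, ∀ R : K → Finset L, (∀ k, (R k).card ≤ D) →
      ¬ Big (2 * Q') m (fun w => B w ∈ R (G w)) := by
  by_contra hcon
  push Not at hcon
  set α : ℝ := (Fintype.card A : ℝ) with hαdef
  have hα2 : (2 : ℝ) ≤ α := by rw [hαdef]; exact_mod_cast hA
  have hL' : (0 : ℝ) < Fintype.card L := by exact_mod_cast hL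
  set δ : ℝ := (D : ℝ) / (Fintype.card L : ℝ) with hδdef
  have hδ0 : 0 ≤ δ := by positivity
  have hδ1 : δ ≤ (α⁻¹) ^ 2 := by
    rw [hδdef, inv_pow, div_le_iff₀ hL', inv_mul_eq_div, le_div_iff₀ (by positivity)]
    rw [hαdef, mul_comm]
    exact_mod_cast hD
  let 𝓡 : Finset (K → Finset L) := univ.filter (fun R => ∀ k, (R k).card ≤ D)
  have hcov : (univ : Finset (Tup A m → L)) ⊆ 𝓡.biUnion (fun R =>
      univ.filter (fun B : Tup A m → L => Big (2 * Q') m (fun w => B w ∈ R (G w)))) := by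
    intro B _
    obtain ⟨R, hR1, hR2⟩ := hcon B
    rw [mem_biUnion]
    exact ⟨R, mem_filter.2 ⟨mem_univ _, hR1⟩, mem_filter.2 ⟨mem_univ _, hR2⟩⟩
  have hcard : (Fintype.card (Tup A m → L) : ℝ) ≤
      ∑ R ∈ 𝓡, ((α⁻¹) ^ (2 * Q' ^ m) * (Fintype.card (Tup A m → L) : ℝ)) := by
    calc (Fintype.card (Tup A m → L) : ℝ)
        ≤ ∑ R ∈ 𝓡, ((univ.filter (fun B : Tup A m → L =>
            Big (2 * Q') m (fun w => B w ∈ R (G w)))).card : ℝ) := by
          rw [← card_univ]
          exact_mod_cast (card_le_card hcov).trans card_biUnion_le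
      _ ≤ _ := by
          apply sum_le_sum
          intro R hR
          refine (dens_big (2 * Q') δ hδ0 m (fun w => R (G w)) ?_).trans ?_
          · intro w
            rw [hδdef, div_mul_cancel₀ _ hL'.ne']
            exact_mod_cast (mem_filter.1 hR).2 (G w)
          · apply mul_le_mul_of_nonneg_right _ (Nat.cast_nonneg _)
            exact pd_bound α δ Q' (by linarith) hQ hδ0 hδ1 m
  have hpos : (0 : ℝ) < Fintype.card (Tup A m → L) := by
    rw [Fintype.card_fun]
    positivity
  rw [sum_const, nsmul_eq_mul, ← mul_assoc] at hcard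
  have h1 : (1 : ℝ) ≤ (𝓡.card : ℝ) * (α⁻¹) ^ (2 * Q' ^ m) := by
    by_contra hlt
    push Not at hlt
    have := mul_lt_mul_of_pos_right hlt hpos
    rw [one_mul] at this
    linarith
  have h2 : (𝓡.card : ℝ) ≤ 2 ^ (Fintype.card L * Fintype.card K) := by
    have : 𝓡.card ≤ Fintype.card (K → Finset L) := card_le_univ _
    rw [Fintype.card_fun, Fintype.card_finset, ← pow_mul] at this
    exact_mod_cast this
  have h3 : (α⁻¹) ^ (2 * Q' ^ m) ≤ ((2 : ℝ)⁻¹) ^ (2 * Q' ^ m) := by
    apply pow_le_pow_left₀ (by positivity)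
    exact inv_anti₀ (by norm_num) hα2
  have h4 : (1 : ℝ) ≤ 2 ^ (Fintype.card L * Fintype.card K) * ((2 : ℝ)⁻¹) ^ (2 * Q' ^ m) :=
    h1.trans (mul_le_mul h2 h3 (by positivity) (by positivity))
  rw [inv_pow, ← div_eq_mul_inv, le_div_iff₀ (by positivity), one_mul] at h4
  have h5 := (pow_le_pow_iff_right₀ (show (1 : ℝ) < 2 by norm_num)).1 h4
  omega

end Pool.Agent.Q302.HU
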