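import Mathlib
import Pool.Agent.Q302.HU.Level

/-!
Gluing the finite levels to one function of `m` infinite sequences, and choosing good tuples.
-/

set_option maxHeartbeats 1000000

namespace Pool.Agent.Q302.HU

open Filter
open scoped Classical

/-- restriction of a sequence to its first `k` letters -/
def res {A : Type} (k : ℕ) (x : ℕ → A) : Fin k → A := fun t => x t

/-- extension by the default letter -/
noncomputable def ext {A : Type} [Inhabited A] (n : ℕ) (w : Fin n → A) : ℕ → A :=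
  fun t => if h : t < n then w ⟨t, h⟩ else default

theorem res_ext {A : Type} [Inhabited A] (n : ℕ) (w : Fin n → A) : res n (ext n w) = w := by
  funext t
  simp [res, ext]

def Tup.map {A B : Type} (f : A → B) : (j : ℕ) → Tup A j → Tup B j
  | 0, _ => ()
  | (j + 1), w => (f w.1, Tup.map f j w.2)

def Tup.All {A : Type} (S : Set A) : (j : ℕ) → Tup A j → Prop
  | 0, _ => True
  | (j + 1), w => w.1 ∈ S ∧ Tup.All S j w.2

theorem Tup.map_map {A B C : Type} (f : A → B) (g : B → C) : ∀ (j : ℕ) (w : Tup A j),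
    Tup.map g j (Tup.map f j w) = Tup.map (fun a => g (f a)) j w
  | 0, _ => rfl
  | (j + 1), w => by
    simp only [Tup.map]
    rw [Tup.map_map f g j]

theorem Tup.map_id' {A : Type} (f : A → A) (hf : ∀ a, f a = a) : ∀ (j : ℕ) (w : Tup A j),
    Tup.map f j w = w
  | 0, _ => rfl
  | (j + 1), w => by
    simp only [Tup.map]
    rw [Tup.map_id' f hf j, hf]
    rfl

/-- `ρ`-small sets of sequences. -/
def Small {A : Type} (ρ : ℝ) (X : Set (ℕ → A)) : Prop :=
  ∃ (ν : ℕ → ℕ) (T : ∀ i, Finset (Fin (ν i) → A)),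
    Summable (fun i => ((T i).card : ℝ) * (ρ⁻¹) ^ (ν i)) ∧
    ∀ x ∈ X, ∃ᶠ i in atTop, res (ν i) x ∈ T i

theorem choose_tuple {A : Type} [Fintype A] (ρ : ℝ) (hρ : 0 < ρ) (X : Set (ℕ → A))
    (hX : ¬ Small ρ X) (ν Q : ℕ → ℕ)
    (hQ : Summable (fun i => (Q i : ℝ) * (ρ⁻¹) ^ (ν i))) :
    ∀ (j : ℕ) (P : ∀ i, Tup (Fin (ν i) → A) j → Prop),
      (∀ᶠ i in atTop, ¬ Big (Q i) j (P i)) →
      ∃ x : Tup (ℕ → A) j, Tup.All X j x ∧ ∀ᶠ i in atTop, ¬ P i (Tup.map (res (ν i)) j x) := by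
  intro j
  induction j with
  | zero =>
    intro P hP
    exact ⟨(), trivial, hP⟩
  | succ j ih =>
    intro P hP
    let T : ∀ i, Finset (Fin (ν i) → A) := fun i =>
      if Big (Q i) (j + 1) (P i) then ∅ else
        Finset.univ.filter (fun a => Big (Q i) j (fun w => P i (a, w)))
    have hT : ∀ i, (T i).card ≤ Q i := by
      intro i
      simp only [T]
      split_ifs with h
      · simp
      · simp only [Big, not_le] at h
        exact h.le
    have hsum : Summable (fun i => ((T i).card : ℝ) * (ρ⁻¹) ^ (ν i)) := by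
      refine Summable.of_nonneg_of_le (fun i => by positivity) (fun i => ?_) hQ
      apply mul_le_mul_of_nonneg_right _ (by positivity)
      exact_mod_cast hT i
    obtain ⟨x, hxX, hx⟩ : ∃ x ∈ X, ∀ᶠ i in atTop, res (ν i) x ∉ T i := by
      by_contra hcon
      push Not at hcon
      exact hX ⟨ν, T, hsum, fun x hx => by simpa [Filter.Frequently] using hcon x hx⟩
    obtain ⟨w, hw1, hw2⟩ := ih (fun i w => P i (res (ν i) x, w)) (by
      filter_upwards [hx, hP] with i h1 h2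
      simp only [T, h2, if_false, Finset.mem_filter, Finset.mem_univ, true_and] at h1
      exact h1)
    exact ⟨(x, w), ⟨hxX, hw1⟩, hw2⟩

section Glue

variable {A A' : Type} [Inhabited A] [Inhabited A'] (m : ℕ) (ν κ ℓ : ℕ → ℕ)

/-- the finite function of the prefixes induced by a function of the sequences -/
noncomputable def Gof (i : ℕ) (F : Tup (ℕ → A) m → (ℕ → A')) :
    Tup (Fin (ν i) → A) m → (Fin (κ i) → A') :=
  fun w => res (κ i) (F (Tup.map (ext (ν i)) m w))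

variable (Bc : ∀ i, (Tup (Fin (ν i) → A) m → (Fin (κ i) → A')) →
  (Tup (Fin (ν i) → A) m → (Fin (ℓ i) → A')))

/-- the approximations -/
noncomputable def FF : ℕ → (Tup (ℕ → A) m → (ℕ → A'))
  | 0 => fun _ _ => default
  | (i + 1) => fun x t => if t < κ i then FF i x t else
      if h : t - κ i < ℓ i then
        Bc i (Gof m ν κ i (FF i)) (Tup.map (res (ν i)) m x) ⟨t - κ i, h⟩ else default

/-- the glued function -/
noncomputable def glue (x : Tup (ℕ → A) m) (t : ℕ) : A' := FF m ν κ ℓ Bc (t + 1) x t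

variable {m ν κ ℓ}

theorem FF_succ (i : ℕ) (x : Tup (ℕ → A) m) {t : ℕ} (ht : t < κ i) :
    FF m ν κ ℓ Bc (i + 1) x t = FF m ν κ ℓ Bc i x t := by
  simp [FF, ht]

theorem FF_block (i : ℕ) (x : Tup (ℕ → A) m) (t : Fin (ℓ i)) :
    FF m ν κ ℓ Bc (i + 1) x (κ i + t) =
      Bc i (Gof m ν κ i (FF m ν κ ℓ Bc i)) (Tup.map (res (ν i)) m x) t := by
  simp [FF]

theorem FF_dep (hν : Monotone ν) (hκ0 : κ 0 = 0) (hκ : ∀ i, κ (i + 1) = κ i + ℓ i) :
    ∀ (i : ℕ) (x x' : Tup (ℕ → A) m),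
      Tup.map (res (ν i)) m x = Tup.map (res (ν i)) m x' →
      ∀ t < κ i, FF m ν κ ℓ Bc i x t = FF m ν κ ℓ Bc i x' t := by
  intro i
  induction i with
  | zero =>
    intro x x' _ t ht
    omega
  | succ i ih =>
    intro x x' h t ht
    have h' : Tup.map (res (ν i)) m x = Tup.map (res (ν i)) m x' := by
      have hle : ν i ≤ ν (i + 1) := hν (Nat.le_succ i)
      have e : ∀ z : Tup (ℕ → A) m, Tup.map (res (ν i)) m z =
          Tup.map (fun (w : Fin (ν (i + 1)) → A) (t : Fin (ν i)) => w (Fin.castLE hle t)) m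
            (Tup.map (res (ν (i + 1))) m z) := by
        intro z
        rw [Tup.map_map]
        rfl
      rw [e x, e x', h]
    by_cases hlt : t < κ i
    · rw [FF_succ Bc i x hlt, FF_succ Bc i x' hlt]
      exact ih x x' h' t hlt
    · have hl : t - κ i < ℓ i := by rw [hκ] at ht; omega
      simp only [FF, hlt, if_false, hl, dif_pos, h']

theorem Gof_eq (hν : Monotone ν) (hκ0 : κ 0 = 0) (hκ : ∀ i, κ (i + 1) = κ i + ℓ i)
    (i : ℕ) (x : Tup (ℕ → A) m) :
    Gof m ν κ i (FF m ν κ ℓ Bc i) (Tup.map (res (ν i)) m x) =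
      res (κ i) (FF m ν κ ℓ Bc i x) := by
  funext t
  unfold Gof res
  apply FF_dep Bc hν hκ0 hκ i _ _ _ t t.2
  rw [Tup.map_map]
  rw [Tup.map_map]
  congr 1
  funext z
  exact res_ext _ _

theorem FF_mono (hκ : ∀ i, κ (i + 1) = κ i + ℓ i) (x : Tup (ℕ → A) m) {t i : ℕ} (ht : t < κ i) :
    ∀ d, FF m ν κ ℓ Bc (i + d) x t = FF m ν κ ℓ Bc i x t := by
  intro d
  induction d with
  | zero => rfl
  | succ d ih =>
    have hlt : t < κ (i + d) := by
      clear ih
      induction d with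
      | zero => exact ht
      | succ d ih2 =>
        rw [← add_assoc, hκ]
        omega
    rw [← add_assoc, FF_succ Bc (i + d) x hlt, ih]

theorem le_kappa (hκ : ∀ i, κ (i + 1) = κ i + ℓ i) (hℓ : ∀ i, 1 ≤ ℓ i) : ∀ i, i ≤ κ i := by
  intro i
  induction i with
  | zero => exact Nat.zero_le _
  | succ i ih =>
    have := hκ i
    have := hℓ i
    omega

theorem glue_eq (hκ : ∀ i, κ (i + 1) = κ i + ℓ i) (hℓ : ∀ i, 1 ≤ ℓ i) (x : Tup (ℕ → A) m)
    {t i : ℕ} (ht : t < κ i) : glue m ν κ ℓ Bc x t = FF m ν κ ℓ Bc i x t := by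
  unfold glue
  have h1 : t < κ (t + 1) := by
    have := le_kappa hκ hℓ (t + 1)
    omega
  rcases le_total i (t + 1) with h | h
  · obtain ⟨d, hd⟩ := Nat.exists_eq_add_of_le h
    rw [hd]
    exact FF_mono Bc hκ x ht d
  · obtain ⟨d, hd⟩ := Nat.exists_eq_add_of_le h
    rw [hd]
    exact (FF_mono Bc hκ x h1 d).symm

/-- the `i`-th block of a sequence -/
def blk (a l : ℕ) (y : ℕ → A') : Fin l → A' := fun t => y (a + t)

/-- The glued function escapes all targets with small fibres. -/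
theorem glue_escape [Fintype A] (ρ : ℝ) (hρ : 0 < ρ) (Q D : ℕ → ℕ)
    (hQ : Summable (fun i => (Q i : ℝ) * (ρ⁻¹) ^ (ν i)))
    (hν : Monotone ν) (hκ0 : κ 0 = 0) (hκ : ∀ i, κ (i + 1) = κ i + ℓ i) (hℓ : ∀ i, 1 ≤ ℓ i)
    (hBc : ∀ i G (R : (Fin (κ i) → A') → Finset (Fin (ℓ i) → A')), (∀ k, (R k).card ≤ D i) →
      ¬ Big (Q i) m (fun w => Bc i G w ∈ R (G w)))
    (R : ∀ i, (Fin (κ i) → A') → Finset (Fin (ℓ i) → A'))
    (hR : ∀ᶠ i in atTop, ∀ k, (R i k).card ≤ D i)
    (X : Set (ℕ → A)) (hX : ¬ Small ρ X) :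
    ∃ x : Tup (ℕ → A) m, Tup.All X m x ∧ ∀ᶠ i in atTop,
      blk (κ i) (ℓ i) (glue m ν κ ℓ Bc x) ∉ R i (res (κ i) (glue m ν κ ℓ Bc x)) := by
  obtain ⟨x, hx1, hx2⟩ := choose_tuple ρ hρ X hX ν Q hQ m
    (fun i w => Bc i (Gof m ν κ i (FF m ν κ ℓ Bc i)) w ∈
      R i (Gof m ν κ i (FF m ν κ ℓ Bc i) w)) (by
      filter_upwards [hR] with i hi
      exact hBc i _ (R i) hi)
  refine ⟨x, hx1, ?_⟩
  filter_upwards [hx2] with i hi
  rw [Gof_eq Bc hν hκ0 hκ] at hi
  have e1 : res (κ i) (glue m ν κ ℓ Bc x) = res (κ i) (FF m ν κ ℓ Bc i x) := by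
    funext t
    exact glue_eq Bc hκ hℓ x t.2
  have e2 : blk (κ i) (ℓ i) (glue m ν κ ℓ Bc x) =
      Bc i (Gof m ν κ i (FF m ν κ ℓ Bc i)) (Tup.map (res (ν i)) m x) := by
    funext t
    unfold blk
    rw [glue_eq Bc hκ hℓ x (i := i + 1) (by rw [hκ]; have := t.2; omega)]
    exact FF_block Bc i x t
  rw [e1, e2]
  exact hi

end Glue

end Pool.Agent.Q302.HU
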