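import Mathlib
import Pool.Agent.Q302.HU.Glue

/-!
Regularisation of the covers of the target: small fibres.
-/

set_option maxHeartbeats 1000000

namespace Pool.Agent.Q302.HU

open Filter
open scoped Classical

variable {A' : Type} [Fintype A'] [Inhabited A']

theorem ext_res {A : Type} [Inhabited A] (k : ℕ) (y : ℕ → A) {t : ℕ} (ht : t < k) :
    ext k (res k y) t = y t := by
  simp [ext, res, ht]

theorem res_split (a l : ℕ) (y z : ℕ → A') :
    res (a + l) y = res (a + l) z ↔ res a y = res a z ∧ blk a l y = blk a l z := by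
  constructor
  · intro h
    refine ⟨funext fun t => ?_, funext fun t => ?_⟩
    · exact congrFun h ⟨t, by have := t.2; omega⟩
    · exact congrFun h ⟨a + t, by have := t.2; omega⟩
  · rintro ⟨h1, h2⟩
    funext t
    by_cases ht : (t : ℕ) < a
    · exact congrFun h1 ⟨t, ht⟩
    · have h3 := congrFun h2 ⟨t - a, by have := t.2; omega⟩
      simp only [blk] at h3
      have e : a + ((t : ℕ) - a) = t := by omega
      rw [e] at h3
      exact h3

/-- number of strings of `T k` extending the first `j` letters of `y` -/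
noncomputable def Nn (T : ∀ k, Finset (Fin k → A')) (k j : ℕ) (y : ℕ → A') : ℕ :=
  ((T k).filter (fun τ => res j (ext k τ) = res j y)).card

/-- the level of `k` -/
noncomputable def lev (κ : ℕ → ℕ) (k : ℕ) : ℕ := Nat.findGreatest (fun i => κ i ≤ k) k

theorem lev_le {κ : ℕ → ℕ} (hκ0 : κ 0 = 0) (k : ℕ) : κ (lev κ k) ≤ k := by
  have := Nat.findGreatest_spec (P := fun i => κ i ≤ k) (Nat.zero_le k) (by rw [hκ0]; exact Nat.zero_le _)
  exact this

theorem lt_lev {κ : ℕ → ℕ} (hle : ∀ i, i ≤ κ i) (k : ℕ) : k < κ (lev κ k + 1) := by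
  by_contra hcon
  push Not at hcon
  have h1 : lev κ k + 1 ≤ k := (hle _).trans hcon
  have := Nat.le_findGreatest (P := fun i => κ i ≤ k) h1 hcon
  unfold lev at this
  omega

/-- heavy prefixes -/
def Heavy (T : ∀ k, Finset (Fin k → A')) (κ : ℕ → ℕ) (γ : ℝ) (k i : ℕ) (y : ℕ → A') : Prop :=
  γ ^ (κ (lev κ k)) ≤ (Nn T k (κ i) y : ℝ) * γ ^ (κ i)

theorem regularize (κ ℓ D : ℕ → ℕ) (β γ0 γ C : ℝ) (hβ : 1 ≤ β) (hγ0 : 1 ≤ γ0) (hγ : γ0 < γ)
    (hC : 1 ≤ C) (hκ0 : κ 0 = 0) (hκ : ∀ i, κ (i + 1) = κ i + ℓ i) (hℓ : ∀ i, 1 ≤ ℓ i)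
    (H1 : ∀ᶠ i in atTop, β ^ (κ (i + 1)) ≤ γ0 ^ (κ i))
    (H3 : ∀ᶠ i in atTop, κ (i + 1) ≤ 2 * κ i)
    (H2 : ∀ M : ℕ, ∀ᶠ i in atTop, ((M * κ (i + 1) : ℕ) : ℝ) * γ ^ (ℓ i) ≤ D i)
    (T : ∀ k, Finset (Fin k → A')) (hT : ∀ k, ((T k).card : ℝ) ≤ C * β ^ k) :
    ∃ R : ∀ i, (Fin (κ i) → A') → Finset (Fin (ℓ i) → A'),
      (∀ᶠ i in atTop, ∀ k, (R i k).card ≤ D i) ∧
      ∀ y : ℕ → A', (∃ᶠ k in atTop, res k y ∈ T k) →
        ∃ᶠ i in atTop, blk (κ i) (ℓ i) y ∈ R i (res (κ i) y) := by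
  have hγ1 : 1 < γ := hγ0.trans_lt hγ
  have hγpos : 0 < γ := one_pos.trans hγ1
  have hγ0pos : 0 < γ0 := one_pos.trans_le hγ0
  have hle := le_kappa hκ hℓ
  have hκmono : Monotone κ := monotone_nat_of_le_succ fun i => by rw [hκ]; omega
  obtain ⟨M, hM⟩ : ∃ M : ℕ, C * γ ≤ (γ / γ0) ^ M := by
    have : 1 < γ / γ0 := by rw [one_lt_div hγ0pos]; exact hγ
    obtain ⟨M, hM⟩ := pow_unbounded_of_one_lt (C * γ) this
    exact ⟨M, hM.le⟩
  obtain ⟨i2, hi2⟩ := eventually_atTop.1 (H1.and H3)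
  -- heavy gives a bound
  have key : ∀ k i y, i2 ≤ lev κ k → Heavy T κ γ k i y →
      (γ / γ0) ^ (κ (lev κ k)) ≤ C * γ ^ (κ i) := by
    intro k i y hk hH
    unfold Heavy at hH
    have h1 : (Nn T k (κ i) y : ℝ) ≤ C * β ^ k := by
      refine le_trans ?_ (hT k)
      exact_mod_cast Finset.card_filter_le _ _
    have h2 : β ^ k ≤ γ0 ^ (κ (lev κ k)) := by
      refine le_trans ?_ (hi2 (lev κ k) hk).1
      exact pow_le_pow_right₀ hβ (lt_lev hle k).le
    have h3 : γ ^ (κ (lev κ k)) ≤ C * γ0 ^ (κ (lev κ k)) * γ ^ (κ i) := by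
      refine hH.trans (mul_le_mul_of_nonneg_right ?_ (by positivity))
      refine h1.trans (mul_le_mul_of_nonneg_left h2 (by linarith))
    rw [div_pow, div_le_iff₀ (by positivity)]
    calc γ ^ (κ (lev κ k)) ≤ C * γ0 ^ (κ (lev κ k)) * γ ^ (κ i) := h3
      _ = C * γ ^ (κ i) * γ0 ^ (κ (lev κ k)) := by ring
  have hratio : 1 < γ / γ0 := by rw [one_lt_div hγ0pos]; exact hγ
  have key2 : ∀ k i y, i2 ≤ lev κ k → 1 ≤ κ i → Heavy T κ γ k i y →
      κ (lev κ k) ≤ M * κ i := by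
    intro k i y hk hi hH
    have h1 := key k i y hk hH
    by_contra hcon
    push Not at hcon
    have h2 : (γ / γ0) ^ (M * κ i) < (γ / γ0) ^ (κ (lev κ k)) :=
      pow_lt_pow_right₀ hratio hcon
    have h3 : C * γ ^ (κ i) ≤ (γ / γ0) ^ (M * κ i) := by
      rw [pow_mul]
      calc C * γ ^ (κ i) ≤ C ^ (κ i) * γ ^ (κ i) := by
            apply mul_le_mul_of_nonneg_right _ (by positivity)
            exact le_self_pow₀ hC (by omega)
        _ = (C * γ) ^ (κ i) := by rw [mul_pow]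
        _ ≤ ((γ / γ0) ^ M) ^ (κ i) := pow_le_pow_left₀ (by positivity) hM _
    linarith
  let R : ∀ i, (Fin (κ i) → A') → Finset (Fin (ℓ i) → A') := fun i ρ =>
    (Finset.range (2 * M * κ (i + 1))).biUnion (fun k =>
      Finset.univ.filter (fun b : Fin (ℓ i) → A' => ∃ y, res (κ i) y = ρ ∧
        blk (κ i) (ℓ i) y = b ∧ i + 1 ≤ lev κ k ∧ Heavy T κ γ k (i + 1) y ∧
        ¬ Heavy T κ γ k i y))
  refine ⟨R, ?_, ?_⟩
  · filter_upwards [H2 (2 * M)] with i hi ρ
    have h1 : ∀ k ∈ Finset.range (2 * M * κ (i + 1)),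
        ((Finset.univ.filter (fun b : Fin (ℓ i) → A' => ∃ y, res (κ i) y = ρ ∧
          blk (κ i) (ℓ i) y = b ∧ i + 1 ≤ lev κ k ∧ Heavy T κ γ k (i + 1) y ∧
          ¬ Heavy T κ γ k i y)).card : ℝ) ≤ γ ^ (ℓ i) := by
      intro k _
      set Λ := Finset.univ.filter (fun b : Fin (ℓ i) → A' => ∃ y, res (κ i) y = ρ ∧
          blk (κ i) (ℓ i) y = b ∧ i + 1 ≤ lev κ k ∧ Heavy T κ γ k (i + 1) y ∧
          ¬ Heavy T κ γ k i y) with hΛ
      rcases Λ.eq_empty_or_nonempty with he | ⟨b0, hb0⟩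
      · rw [he]
        simp only [Finset.card_empty, Nat.cast_zero]
        positivity
      set S := (T k).filter (fun τ => res (κ i) (ext k τ) = ρ) with hS
      -- the root of the fibre is not heavy
      have hroot : (S.card : ℝ) * γ ^ (κ i) < γ ^ (κ (lev κ k)) := by
        obtain ⟨y, hy1, -, -, -, hy5⟩ := (Finset.mem_filter.1 hb0).2
        unfold Heavy at hy5
        push Not at hy5
        unfold Nn at hy5
        rw [hy1] at hy5
        exact hy5
      have hfib : ∀ b ∈ Λ, γ ^ (κ (lev κ k)) ≤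
          ((S.filter (fun τ => blk (κ i) (ℓ i) (ext k τ) = b)).card : ℝ) * γ ^ (κ (i + 1)) := by
        intro b hb
        obtain ⟨y, hy1, hy2, -, hy4, -⟩ := (Finset.mem_filter.1 hb).2
        unfold Heavy Nn at hy4
        have e : (T k).filter (fun τ => res (κ (i + 1)) (ext k τ) = res (κ (i + 1)) y) =
            S.filter (fun τ => blk (κ i) (ℓ i) (ext k τ) = b) := by
          ext τ
          simp only [hS, Finset.mem_filter]
          rw [hκ i, res_split, hy1, hy2, and_assoc]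
        rw [e] at hy4
        exact hy4
      have hsum : ∑ b ∈ Λ, (S.filter (fun τ => blk (κ i) (ℓ i) (ext k τ) = b)).card ≤ S.card := by
        have h5 := Finset.card_biUnion (s := Λ)
          (t := fun b => S.filter (fun τ => blk (κ i) (ℓ i) (ext k τ) = b)) (by
            intro b _ b' _ hbb'
            rw [Function.onFun, Finset.disjoint_left]
            intro τ h1 h2
            exact hbb' ((Finset.mem_filter.1 h1).2.symm.trans (Finset.mem_filter.1 h2).2))
        rw [← h5]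
        apply Finset.card_le_card
        intro τ hτ
        obtain ⟨b, -, hb⟩ := Finset.mem_biUnion.1 hτ
        exact (Finset.mem_filter.1 hb).1
      have h6 : (Λ.card : ℝ) * γ ^ (κ (lev κ k)) ≤ (S.card : ℝ) * γ ^ (κ (i + 1)) := by
        calc (Λ.card : ℝ) * γ ^ (κ (lev κ k)) = ∑ b ∈ Λ, γ ^ (κ (lev κ k)) := by
              rw [Finset.sum_const, nsmul_eq_mul]
          _ ≤ ∑ b ∈ Λ, ((S.filter (fun τ => blk (κ i) (ℓ i) (ext k τ) = b)).card : ℝ) *
                γ ^ (κ (i + 1)) := Finset.sum_le_sum hfib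
          _ = ((∑ b ∈ Λ, (S.filter (fun τ => blk (κ i) (ℓ i) (ext k τ) = b)).card : ℕ) : ℝ) *
                γ ^ (κ (i + 1)) := by
              rw [← Finset.sum_mul]
              push_cast
              rfl
          _ ≤ (S.card : ℝ) * γ ^ (κ (i + 1)) := by
              apply mul_le_mul_of_nonneg_right _ (by positivity)
              exact_mod_cast hsum
      have h7 : (S.card : ℝ) * γ ^ (κ (i + 1)) ≤ γ ^ (κ (lev κ k)) * γ ^ (ℓ i) := by
        rw [hκ i, pow_add, ← mul_assoc]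
        exact mul_le_mul_of_nonneg_right hroot.le (by positivity)
      have h8 := h6.trans h7
      rw [mul_comm] at h8
      exact le_of_mul_le_mul_left h8 (by positivity)
    have h2 : ((R i ρ).card : ℝ) ≤ D i := by
      calc ((R i ρ).card : ℝ) ≤ ∑ k ∈ Finset.range (2 * M * κ (i + 1)),
            ((Finset.univ.filter (fun b : Fin (ℓ i) → A' => ∃ y, res (κ i) y = ρ ∧
              blk (κ i) (ℓ i) y = b ∧ i + 1 ≤ lev κ k ∧ Heavy T κ γ k (i + 1) y ∧
              ¬ Heavy T κ γ k i y)).card : ℝ) := by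
            exact_mod_cast Finset.card_biUnion_le
        _ ≤ ∑ k ∈ Finset.range (2 * M * κ (i + 1)), γ ^ (ℓ i) := Finset.sum_le_sum h1
        _ = ((2 * M * κ (i + 1) : ℕ) : ℝ) * γ ^ (ℓ i) := by
            rw [Finset.sum_const, Finset.card_range, nsmul_eq_mul]
        _ ≤ D i := hi
    exact_mod_cast h2
  · intro y hy
    rw [frequently_atTop]
    intro i3
    -- bound for the heavy roots
    set i4 := max i2 i3 + 1 with hi4
    obtain ⟨k0, hk0⟩ : ∃ k0 : ℕ, C * γ ^ (κ i4) < (γ / γ0) ^ k0 :=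
      pow_unbounded_of_one_lt _ hratio
    obtain ⟨k, hk1, hk2⟩ := (frequently_atTop.1 hy) (κ (max i4 k0))
    have hlev : max i4 k0 ≤ lev κ k :=
      Nat.le_findGreatest ((hle _).trans hk1) hk1
    have hnot : ∀ i ≤ i4, ¬ Heavy T κ γ k i y := by
      intro i hi hH
      have h1 := key k i y (by omega) hH
      have h2 : C * γ ^ (κ i) ≤ C * γ ^ (κ i4) :=
        mul_le_mul_of_nonneg_left (pow_le_pow_right₀ hγ1.le (hκmono hi)) (by linarith)
      have h3 : (γ / γ0) ^ k0 ≤ (γ / γ0) ^ (κ (lev κ k)) :=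
        pow_le_pow_right₀ hratio.le (((le_max_right _ _).trans hlev).trans (hle _))
      linarith
    have hheavy : Heavy T κ γ k (lev κ k) y := by
      unfold Heavy
      have h1 : 1 ≤ Nn T k (κ (lev κ k)) y := by
        unfold Nn
        apply Finset.card_pos.2
        refine ⟨res k y, Finset.mem_filter.2 ⟨hk2, ?_⟩⟩
        funext t
        exact ext_res k y (t.2.trans_le (lev_le hκ0 k))
      have h2 : (1 : ℝ) ≤ Nn T k (κ (lev κ k)) y := by exact_mod_cast h1
      nlinarith [pow_pos hγpos (κ (lev κ k))]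
    have hex : ∃ i, Heavy T κ γ k i y := ⟨_, hheavy⟩
    set i5 := Nat.find hex with hi5
    have h5 : Heavy T κ γ k i5 y := Nat.find_spec hex
    have h5le : i5 ≤ lev κ k := Nat.find_min' hex hheavy
    have h5gt : i4 < i5 := by
      by_contra hcon
      exact hnot i5 (not_lt.1 hcon) h5
    obtain ⟨i, hi⟩ : ∃ i, i5 = i + 1 := ⟨i5 - 1, by omega⟩
    refine ⟨i, by omega, ?_⟩
    simp only [R, Finset.mem_biUnion, Finset.mem_filter, Finset.mem_univ, true_and,
      Finset.mem_range]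
    rw [hi] at h5 h5le
    refine ⟨k, ?_, y, rfl, rfl, h5le, h5, ?_⟩
    · have h6 := key2 k (i + 1) y (by omega) (by have := hle (i + 1); omega) h5
      have h7 := lt_lev hle k
      have h8 := (hi2 (lev κ k) (by omega)).2
      calc k < κ (lev κ k + 1) := h7
        _ ≤ 2 * κ (lev κ k) := h8
        _ ≤ 2 * (M * κ (i + 1)) := by omega
        _ = 2 * M * κ (i + 1) := by ring
    · exact Nat.find_min hex (by omega)

end Pool.Agent.Q302.HU
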