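import Mathlib
import Pool.Agent.Q302.HU.Reg

/-!
The main combinatorial theorem for sequences.
-/

set_option maxHeartbeats 1000000

namespace Pool.Agent.Q302.HU

open Filter
open scoped Classical Topology

/-- lengths of the source prefixes -/
def nn (q : ℕ) : ℕ → ℕ
  | 0 => 1
  | (i + 1) => nn q i + nn q i / q + 1

/-- partial sums -/
def NN (q : ℕ) : ℕ → ℕ
  | 0 => 0
  | (i + 1) => NN q i + nn q i

theorem nn_ge (q : ℕ) : ∀ i, i + 1 ≤ nn q i
  | 0 => le_rfl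
  | (i + 1) => by
    have := nn_ge q i
    simp only [nn]
    generalize nn q i / q = z
    omega

theorem nn_mono (q : ℕ) : Monotone (nn q) :=
  monotone_nat_of_le_succ fun i => by
    simp only [nn]
    generalize nn q i / q = z
    omega

theorem NN_le (q : ℕ) (hq : 1 ≤ q) : ∀ i, NN q i ≤ q * nn q i
  | 0 => Nat.zero_le _
  | (i + 1) => by
    have h := NN_le q hq i
    have h2 := Nat.div_add_mod (nn q i) q
    have h3 := Nat.mod_lt (nn q i) (show q > 0 by omega)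
    simp only [NN, nn]
    have e : q * (nn q i + nn q i / q + 1) = q * nn q i + q * (nn q i / q) + q := by ring
    rw [e]
    omega

theorem le_NN (q : ℕ) : ∀ i, q * nn q i ≤ NN q i + q * (i + 1)
  | 0 => by simp [nn, NN]
  | (i + 1) => by
    have h := le_NN q i
    have h2 := Nat.div_add_mod (nn q i) q
    simp only [NN, nn]
    have e : q * (nn q i + nn q i / q + 1) = q * nn q i + q * (nn q i / q) + q := by ring
    have e2 : q * (i + 1 + 1) = q * (i + 1) + q := by ring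
    rw [e, e2]
    omega

theorem NN_ge (q : ℕ) : ∀ i, i * (i + 1) ≤ 2 * NN q i
  | 0 => by simp
  | (i + 1) => by
    have h := NN_ge q i
    have h2 := nn_ge q i
    simp only [NN]
    nlinarith

theorem nn_le_NN (q : ℕ) {i : ℕ} (hi : 2 * q ≤ i) : q * nn q i ≤ 2 * NN q i := by
  have h1 := le_NN q i
  have h2 := NN_ge q i
  have h3 : 2 * q * (i + 1) ≤ i * (i + 1) := Nat.mul_le_mul_right _ hi
  have e : 2 * q * (i + 1) = 2 * (q * (i + 1)) := by ring
  rw [e] at h3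
  omega

theorem small_lengths {A' : Type} [Fintype A'] [Inhabited A'] {β : ℝ} (hβ : 0 < β)
    {Y : Set (ℕ → A')} (hY : Small β Y) :
    ∃ (C : ℝ) (T : ∀ k, Finset (Fin k → A')), 1 ≤ C ∧ (∀ k, ((T k).card : ℝ) ≤ C * β ^ k) ∧
      ∀ y ∈ Y, ∃ᶠ k in atTop, res k y ∈ T k := by
  obtain ⟨ν, T, hsum, hY⟩ := hY
  have hfin : ∀ k, {i | ν i = k ∧ (T i).Nonempty}.Finite := by
    intro k
    have h1 := hsum.tendsto_cofinite_zero
    have h2 : (0 : ℝ) < (β⁻¹) ^ k := by positivity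
    have h3 := (h1.eventually (gt_mem_nhds h2))
    rw [eventually_cofinite] at h3
    refine h3.subset ?_
    rintro i ⟨hi1, hi2⟩
    simp only [Set.mem_ofPred_eq, not_lt]
    have e : (β⁻¹) ^ (ν i) = (β⁻¹) ^ k := by rw [hi1]
    rw [e]
    have : (1 : ℝ) ≤ (T i).card := by exact_mod_cast Finset.card_pos.2 hi2
    nlinarith
  refine ⟨max 1 (∑' i, ((T i).card : ℝ) * (β⁻¹) ^ (ν i)), fun k =>
    Finset.univ.filter (fun τ : Fin k → A' => ∃ i, ν i = k ∧ ∃ y, res k y = τ ∧ res (ν i) y ∈ T i),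
    le_max_left _ _, ?_, ?_⟩
  · intro k
    have h1 : (Finset.univ.filter (fun τ : Fin k → A' =>
        ∃ i, ν i = k ∧ ∃ y, res k y = τ ∧ res (ν i) y ∈ T i)).card ≤
        ∑ i ∈ (hfin k).toFinset, (T i).card := by
      have hsub : (Finset.univ.filter (fun τ : Fin k → A' =>
          ∃ i, ν i = k ∧ ∃ y, res k y = τ ∧ res (ν i) y ∈ T i)) ⊆
          (hfin k).toFinset.biUnion (fun i => (T i).image (fun τ => res k (ext (ν i) τ))) := by
        intro τ hτ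
        obtain ⟨i, hi, y, hy1, hy2⟩ := (Finset.mem_filter.1 hτ).2
        rw [Finset.mem_biUnion]
        refine ⟨i, (hfin k).mem_toFinset.2 ⟨hi, ⟨_, hy2⟩⟩, Finset.mem_image.2 ⟨_, hy2, ?_⟩⟩
        rw [← hy1]
        funext t
        exact ext_res (ν i) y (by rw [hi]; exact t.2)
      refine (Finset.card_le_card hsub).trans (Finset.card_biUnion_le.trans ?_)
      exact Finset.sum_le_sum fun i _ => Finset.card_image_le
    have h2 : ((∑ i ∈ (hfin k).toFinset, (T i).card : ℕ) : ℝ) * (β⁻¹) ^ k ≤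
        ∑' i, ((T i).card : ℝ) * (β⁻¹) ^ (ν i) := by
      push_cast
      rw [Finset.sum_mul]
      calc ∑ i ∈ (hfin k).toFinset, ((T i).card : ℝ) * (β⁻¹) ^ k
          = ∑ i ∈ (hfin k).toFinset, ((T i).card : ℝ) * (β⁻¹) ^ (ν i) := by
            apply Finset.sum_congr rfl
            intro i hi
            have e : (β⁻¹) ^ (ν i) = (β⁻¹) ^ k := by rw [((hfin k).mem_toFinset.1 hi).1]
            rw [e]
        _ ≤ _ := hsum.sum_le_tsum _ (fun i _ => by positivity)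
    have h3 : ((Finset.univ.filter (fun τ : Fin k → A' =>
        ∃ i, ν i = k ∧ ∃ y, res k y = τ ∧ res (ν i) y ∈ T i)).card : ℝ) * (β⁻¹) ^ k ≤
        max 1 (∑' i, ((T i).card : ℝ) * (β⁻¹) ^ (ν i)) := by
      refine le_trans ?_ (h2.trans (le_max_right _ _))
      apply mul_le_mul_of_nonneg_right _ (by positivity)
      exact_mod_cast h1
    rw [inv_pow, ← div_eq_mul_inv, div_le_iff₀ (by positivity)] at h3
    exact h3
  · intro y hy
    rw [frequently_atTop]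
    intro K
    have hfin2 : {i | ν i < K ∧ (T i).Nonempty}.Finite := by
      have : {i | ν i < K ∧ (T i).Nonempty} ⊆
          ⋃ k ∈ Set.Iio K, {i | ν i = k ∧ (T i).Nonempty} := by
        rintro i ⟨h1, h2⟩
        simp only [Set.mem_iUnion]
        exact ⟨ν i, h1, rfl, h2⟩
      exact ((Set.finite_Iio K).biUnion fun k _ => hfin k).subset this
    obtain ⟨b, hb⟩ := hfin2.bddAbove
    obtain ⟨i, hi1, hi2⟩ := (frequently_atTop.1 (hY y hy)) (b + 1)
    have hi3 : K ≤ ν i := by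
      by_contra hcon
      have := hb ⟨not_le.1 hcon, ⟨_, hi2⟩⟩
      omega
    exact ⟨ν i, hi3, Finset.mem_filter.2 ⟨Finset.mem_univ _, i, rfl, y, rfl, hi2⟩⟩

theorem main_seq {A A' : Type} [Fintype A] [Fintype A'] [Inhabited A] [Inhabited A']
    (hA : 2 ≤ Fintype.card A) (ρ β : ℝ) (hρ : 1 < ρ) (hβ : 1 ≤ β)
    (hβb : β < Fintype.card A') :
    ∃ (m : ℕ) (f : Tup (ℕ → A) m → (ℕ → A')), ∀ X, ¬ Small ρ X → ∀ Y, Small β Y →
      ∃ x, Tup.All X m x ∧ f x ∉ Y := by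
  obtain ⟨ρ1, hρ1, hρ1'⟩ := exists_between hρ
  obtain ⟨γ0, hγ0, hγ0'⟩ := exists_between hβb
  obtain ⟨γ, hγ, hγ'⟩ := exists_between hγ0'
  obtain ⟨γ1, hγ1, hγ1'⟩ := exists_between hγ'
  set a : ℕ := Fintype.card A with ha
  set b : ℕ := Fintype.card A' with hb
  have hγ0pos : 0 < γ0 := by linarith
  have hγpos : 0 < γ := by linarith
  have hγ1pos : 0 < γ1 := by linarith
  have hbpos : (0 : ℝ) < b := by linarith
  have hb1 : (1 : ℝ) < b := by linarith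
  -- choice of q
  obtain ⟨q0, hq0⟩ : ∃ q0 : ℕ, β ^ 2 < (γ0 / β) ^ q0 :=
    pow_unbounded_of_one_lt _ (by rw [one_lt_div (by linarith)]; exact hγ0)
  obtain ⟨q, hq2, hq0q⟩ : ∃ q, 2 ≤ q ∧ q0 ≤ q := ⟨max 2 q0, le_max_left _ _, le_max_right _ _⟩
  have hq : β ^ (q + 2) ≤ γ0 ^ q := by
    have h1 : β ^ 2 ≤ (γ0 / β) ^ q := hq0.le.trans
      (pow_le_pow_right₀ (by rw [one_le_div (by linarith)]; exact hγ0.le) hq0q)
    rw [div_pow, le_div_iff₀ (by positivity)] at h1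
    calc β ^ (q + 2) = β ^ 2 * β ^ q := by ring
      _ ≤ γ0 ^ q := h1
  -- choice of p
  obtain ⟨p0, hp0⟩ : ∃ p0 : ℕ, (a : ℝ) ^ 2 < (b / γ1) ^ p0 :=
    pow_unbounded_of_one_lt _ (by rw [one_lt_div hγ1pos]; exact hγ1')
  obtain ⟨p, hp1, hp0p⟩ : ∃ p, 1 ≤ p ∧ p0 ≤ p := ⟨max 1 p0, le_max_left _ _, le_max_right _ _⟩
  have hp : (a : ℝ) ^ 2 * γ1 ^ p ≤ (b : ℝ) ^ p := by
    have h1 : (a : ℝ) ^ 2 ≤ (b / γ1) ^ p := hp0.le.trans
      (pow_le_pow_right₀ (by rw [one_le_div hγ1pos]; exact hγ1'.le) hp0p)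
    rw [div_pow, le_div_iff₀ (by positivity)] at h1
    exact h1
  -- choice of m
  obtain ⟨m, hm⟩ : ∃ m : ℕ, ((b : ℝ) ^ (p * (q + 1))) < ρ1 ^ m :=
    pow_unbounded_of_one_lt _ hρ1
  -- the sequences
  let ν : ℕ → ℕ := nn q
  let κ : ℕ → ℕ := fun i => p * NN q i
  let ℓ : ℕ → ℕ := fun i => p * nn q i
  let D : ℕ → ℕ := fun i => ⌊γ1 ^ (ℓ i)⌋₊
  let Q' : ℕ → ℕ := fun i => ⌈ρ1 ^ (nn q i)⌉₊
  have hκ0 : κ 0 = 0 := by simp [κ, NN]
  have hκ : ∀ i, κ (i + 1) = κ i + ℓ i := fun i => by simp only [κ, ℓ, NN]; ring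
  have hℓ : ∀ i, 1 ≤ ℓ i := fun i => by
    have := nn_ge q i
    exact Nat.one_le_iff_ne_zero.2 (Nat.mul_ne_zero (by omega) (by omega))
  have hκℓ : ∀ i, κ (i + 1) ≤ (q + 1) * ℓ i := by
    intro i
    have h1 := NN_le q (by omega) i
    have h2 : p * NN q i ≤ p * (q * nn q i) := Nat.mul_le_mul_left _ h1
    rw [hκ]
    simp only [κ, ℓ]
    nlinarith
  have hκκ : ∀ i, 2 * q ≤ i → q * κ (i + 1) ≤ (q + 2) * κ i := by
    intro i hi
    have h1 := nn_le_NN q hi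
    have h2 : p * (q * nn q i) ≤ p * (2 * NN q i) := Nat.mul_le_mul_left _ h1
    rw [hκ]
    simp only [κ, ℓ]
    nlinarith
  have hQ1 : ∀ i, 1 ≤ Q' i := by
    intro i
    have : (1 : ℝ) ≤ ρ1 ^ (nn q i) := one_le_pow₀ hρ1.le
    exact Nat.one_le_iff_ne_zero.2 (by
      intro h
      have h2 := Nat.le_ceil (ρ1 ^ (nn q i))
      simp only [Q'] at h
      rw [h] at h2
      push_cast at h2
      linarith)
  -- the level functions
  have hlev : ∀ i (G : Tup (Fin (ν i) → A) m → (Fin (κ i) → A')),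
      ∃ B : Tup (Fin (ν i) → A) m → (Fin (ℓ i) → A'),
      ∀ R : (Fin (κ i) → A') → Finset (Fin (ℓ i) → A'), (∀ k, (R k).card ≤ D i) →
        ¬ Big (2 * Q' i) m (fun w => B w ∈ R (G w)) := by
    intro i G
    have hn1 := nn_ge q i
    refine level m (Q' i) (D i) ?_ (hQ1 i) ?_ ?_ ?_ G
    · rw [Fintype.card_fun, Fintype.card_fin]
      calc 2 ≤ a := hA
        _ = a ^ 1 := (pow_one _).symm
        _ ≤ a ^ (ν i) := Nat.pow_le_pow_right (by omega) (by show 1 ≤ nn q i; omega)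
    · exact Fintype.card_pos
    · rw [Fintype.card_fun, Fintype.card_fin, Fintype.card_fun, Fintype.card_fin]
      have h1 : ((D i : ℕ) : ℝ) ≤ γ1 ^ (ℓ i) := Nat.floor_le (by positivity)
      have h2 : (((a ^ (ν i)) ^ 2 * D i : ℕ) : ℝ) ≤ ((b ^ (ℓ i) : ℕ) : ℝ) := by
        push_cast
        calc (((a : ℝ) ^ (ν i)) ^ 2) * (D i : ℝ) ≤ (((a : ℝ) ^ (ν i)) ^ 2) * γ1 ^ (ℓ i) :=
              mul_le_mul_of_nonneg_left h1 (by positivity)
          _ = ((a : ℝ) ^ 2 * γ1 ^ p) ^ (nn q i) := by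
              simp only [ν, ℓ]
              rw [mul_pow, ← pow_mul, ← pow_mul, ← pow_mul]
              congr 2
              ring
          _ ≤ ((b : ℝ) ^ p) ^ (nn q i) := pow_le_pow_left₀ (by positivity) hp _
          _ = (b : ℝ) ^ (ℓ i) := by
              simp only [ℓ]
              rw [← pow_mul]
      exact_mod_cast h2
    · rw [Fintype.card_fun, Fintype.card_fin, Fintype.card_fun, Fintype.card_fin, ← pow_add]
      have h1 : ((b ^ (ℓ i + κ i) : ℕ) : ℝ) ≤ (((Q' i) ^ m : ℕ) : ℝ) := by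
        push_cast
        have e : ℓ i + κ i = κ (i + 1) := by rw [hκ]; ring
        rw [e]
        calc (b : ℝ) ^ (κ (i + 1)) ≤ (b : ℝ) ^ ((q + 1) * ℓ i) :=
              pow_le_pow_right₀ hb1.le (hκℓ i)
          _ = ((b : ℝ) ^ (p * (q + 1))) ^ (nn q i) := by
              simp only [ℓ]
              rw [← pow_mul]
              congr 1
              ring
          _ ≤ (ρ1 ^ m) ^ (nn q i) := pow_le_pow_left₀ (by positivity) hm.le _
          _ = (ρ1 ^ (nn q i)) ^ m := by rw [← pow_mul, ← pow_mul, mul_comm]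
          _ ≤ (Q' i : ℝ) ^ m := pow_le_pow_left₀ (by positivity) (Nat.le_ceil _) _
      have h2 : b ^ (ℓ i + κ i) ≤ (Q' i) ^ m := by exact_mod_cast h1
      have h3 : 1 ≤ (Q' i) ^ m := Nat.one_le_pow _ _ (hQ1 i)
      change b ^ (ℓ i + κ i) < 2 * Q' i ^ m
      omega
  choose Bc hBc using hlev
  refine ⟨m, glue m ν κ ℓ Bc, ?_⟩
  intro X hX Y hY
  obtain ⟨C, T, hC, hT, hYT⟩ := small_lengths (by linarith) hY
  have hνsum : Summable (fun i => ((2 * Q' i : ℕ) : ℝ) * (ρ⁻¹) ^ (ν i)) := by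
    have hr : ρ1 / ρ < 1 := by rw [div_lt_one (by linarith)]; exact hρ1'
    have hr0 : 0 ≤ ρ1 / ρ := by positivity
    refine Summable.of_nonneg_of_le (fun i => by positivity) (fun i => ?_)
      ((summable_geometric_of_lt_one hr0 hr).mul_left 4)
    have h1 : ((Q' i : ℕ) : ℝ) ≤ 2 * ρ1 ^ (nn q i) := by
      have h2 : ((Q' i : ℕ) : ℝ) < ρ1 ^ (nn q i) + 1 := Nat.ceil_lt_add_one (by positivity)
      have h3 : (1 : ℝ) ≤ ρ1 ^ (nn q i) := one_le_pow₀ hρ1.le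
      linarith
    calc ((2 * Q' i : ℕ) : ℝ) * (ρ⁻¹) ^ (ν i) ≤ (4 * ρ1 ^ (nn q i)) * (ρ⁻¹) ^ (ν i) := by
          apply mul_le_mul_of_nonneg_right _ (by positivity)
          push_cast
          linarith
      _ = 4 * (ρ1 / ρ) ^ (nn q i) := by
          simp only [ν]
          rw [div_eq_mul_inv, mul_pow]
          ring
      _ ≤ 4 * (ρ1 / ρ) ^ i := by
          apply mul_le_mul_of_nonneg_left _ (by norm_num)
          exact pow_le_pow_of_le_one hr0 hr.le (by have := nn_ge q i; omega)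
  have H1 : ∀ᶠ i in atTop, β ^ (κ (i + 1)) ≤ γ0 ^ (κ i) := by
    filter_upwards [eventually_ge_atTop (2 * q)] with i hi
    have h1 : (β ^ (κ (i + 1))) ^ q ≤ (γ0 ^ (κ i)) ^ q := by
      calc (β ^ (κ (i + 1))) ^ q = β ^ (q * κ (i + 1)) := by rw [← pow_mul, mul_comm]
        _ ≤ β ^ ((q + 2) * κ i) := pow_le_pow_right₀ hβ (hκκ i hi)
        _ = (β ^ (q + 2)) ^ (κ i) := by rw [pow_mul]
        _ ≤ (γ0 ^ q) ^ (κ i) := pow_le_pow_left₀ (by positivity) hq _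
        _ = (γ0 ^ (κ i)) ^ q := by rw [← pow_mul, ← pow_mul, mul_comm]
    exact le_of_pow_le_pow_left₀ (by omega) (by positivity) h1
  have H3 : ∀ᶠ i in atTop, κ (i + 1) ≤ 2 * κ i := by
    filter_upwards [eventually_ge_atTop (2 * q)] with i hi
    have h1 := hκκ i hi
    have h2 : (q + 2) * κ i ≤ q * (2 * κ i) := by nlinarith
    exact Nat.le_of_mul_le_mul_left (h1.trans h2) (by omega)
  have H2 : ∀ M : ℕ, ∀ᶠ i in atTop, ((M * κ (i + 1) : ℕ) : ℝ) * γ ^ (ℓ i) ≤ D i := by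
    intro M
    have hr : γ / γ1 < 1 := by rw [div_lt_one hγ1pos]; exact hγ1
    have hr0 : 0 ≤ γ / γ1 := by positivity
    have ht1 : Tendsto (fun n : ℕ => ((M * (q + 1) : ℕ) : ℝ) * ((n : ℝ) * (γ / γ1) ^ n) +
        (γ / γ1) ^ n) atTop (𝓝 (((M * (q + 1) : ℕ) : ℝ) * 0 + 0)) :=
      ((tendsto_self_mul_const_pow_of_lt_one hr0 hr).const_mul _).add
        (tendsto_pow_atTop_nhds_zero_of_lt_one hr0 hr)
    rw [mul_zero, add_zero] at ht1
    have hℓt : Tendsto ℓ atTop atTop := by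
      refine tendsto_atTop_mono (f := fun i : ℕ => i) (fun i => ?_) tendsto_id
      have := nn_ge q i
      simp only [ℓ]
      nlinarith
    have h2 := hℓt.eventually (ht1.eventually (gt_mem_nhds one_pos))
    filter_upwards [h2] with i hi
    have h3 : ((M * κ (i + 1) : ℕ) : ℝ) * γ ^ (ℓ i) + 1 ≤ γ1 ^ (ℓ i) := by
      have h4 : ((M * κ (i + 1) : ℕ) : ℝ) ≤ ((M * (q + 1) : ℕ) : ℝ) * (ℓ i : ℝ) := by
        have h : M * κ (i + 1) ≤ M * (q + 1) * ℓ i := by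
          rw [mul_assoc]
          exact Nat.mul_le_mul_left M (hκℓ i)
        rw [← Nat.cast_mul]
        exact Nat.cast_le.2 h
      have h5 : (1 : ℝ) ≤ γ ^ (ℓ i) := one_le_pow₀ (by linarith)
      rw [div_pow] at hi
      have h6 : 0 < γ1 ^ (ℓ i) := by positivity
      have h7 : (((M * (q + 1) : ℕ) : ℝ) * (ℓ i : ℝ) * γ ^ (ℓ i) + γ ^ (ℓ i)) / γ1 ^ (ℓ i) < 1 := by
        calc (((M * (q + 1) : ℕ) : ℝ) * (ℓ i : ℝ) * γ ^ (ℓ i) + γ ^ (ℓ i)) / γ1 ^ (ℓ i)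
            = ((M * (q + 1) : ℕ) : ℝ) * ((ℓ i : ℝ) * (γ ^ (ℓ i) / γ1 ^ (ℓ i))) +
              γ ^ (ℓ i) / γ1 ^ (ℓ i) := by ring
          _ < 1 := hi
      rw [div_lt_one h6] at h7
      have h8 : ((M * κ (i + 1) : ℕ) : ℝ) * γ ^ (ℓ i) ≤
          ((M * (q + 1) : ℕ) : ℝ) * (ℓ i : ℝ) * γ ^ (ℓ i) :=
        mul_le_mul_of_nonneg_right h4 (by positivity)
      linarith
    have h9 : γ1 ^ (ℓ i) < (D i : ℝ) + 1 := Nat.lt_floor_add_one _
    linarith
  obtain ⟨R, hR1, hR2⟩ := regularize κ ℓ D β γ0 γ C hβ (by linarith) hγ hC hκ0 hκ hℓ H1 H3 H2 T hT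
  obtain ⟨x, hx1, hx2⟩ := glue_escape Bc ρ (by linarith) (fun i => 2 * Q' i) D hνsum (nn_mono q)
    hκ0 hκ hℓ (fun i G R hR => hBc i G R hR) R hR1 X hX
  refine ⟨x, hx1, fun hxY => ?_⟩
  have h1 := hR2 _ (hYT _ hxY)
  obtain ⟨i, hi1, hi2⟩ := (h1.and_eventually hx2).exists
  exact hi2 hi1

end Pool.Agent.Q302.HU
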