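import Mathlib
import Pool.Agent.Q302.HU.Seq

/-!
Small sets of sequences and sets of Hausdorff measure zero.
-/

set_option maxHeartbeats 1000000

namespace Pool.Agent.Q302.HU

open Filter MeasureTheory
open scoped Classical Topology ENNReal NNReal

theorem pow_rpow_swap (r : ℝ) (k : ℕ) : (((2⁻¹ : ℝ≥0∞)) ^ k) ^ r = ((2⁻¹ : ℝ≥0∞) ^ r) ^ k := by
  rw [← ENNReal.rpow_natCast, ← ENNReal.rpow_mul, mul_comm, ENNReal.rpow_mul, ENNReal.rpow_natCast]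

theorem w_eq (r : ℝ) : ((2⁻¹ : ℝ≥0∞)) ^ r = ENNReal.ofReal (((2 : ℝ) ^ r)⁻¹) := by
  have h : (2⁻¹ : ℝ≥0∞) = ENNReal.ofReal ((2 : ℝ)⁻¹) := by
    rw [ENNReal.ofReal_inv_of_pos (by norm_num)]
    simp
  rw [h, ENNReal.ofReal_rpow_of_pos (by norm_num), Real.inv_rpow (by norm_num)]

theorem haus_null_of_small {A E : Type} [Fintype A] [MetricSpace E]
    [MeasurableSpace E] [BorelSpace E] (g : (ℕ → A) → E) (c : ℝ≥0∞) (hc : c ≠ ∞)
    (hg : ∀ k x x', res k x = res k x' → edist (g x) (g x') ≤ c * (2⁻¹ : ℝ≥0∞) ^ k)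
    (r : ℝ) (hr : 0 < r) (X : Set (ℕ → A)) (hX : Small ((2 : ℝ) ^ r) X) :
    Measure.hausdorffMeasure r (g '' X) = 0 := by
  obtain ⟨ν, T, hsum, hX⟩ := hX
  set w : ℝ≥0∞ := (2⁻¹ : ℝ≥0∞) ^ r with hw
  have hterm : ∀ i, ENNReal.ofReal (((T i).card : ℝ) * (((2 : ℝ) ^ r)⁻¹) ^ (ν i)) =
      ((T i).card : ℝ≥0∞) * w ^ (ν i) := by
    intro i
    rw [ENNReal.ofReal_mul (by positivity), ENNReal.ofReal_pow (by positivity), hw, w_eq]
    simp
  have hne : ∑' i, ((T i).card : ℝ≥0∞) * w ^ (ν i) ≠ ∞ := by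
    simp_rw [← hterm]
    exact hsum.tsum_ofReal_ne_top
  let S : ℕ → ℝ≥0∞ := fun I => ∑' i, ((T (i + I)).card : ℝ≥0∞) * w ^ (ν (i + I))
  have hS : Tendsto S atTop (𝓝 0) := ENNReal.tendsto_sum_nat_add _ hne
  let t : ∀ I : ℕ, (Σ i : ℕ, {τ // τ ∈ T (i + I)}) → Set E := fun I p =>
    g '' {x | res (ν (p.1 + I)) x = p.2.1}
  have hdiam : ∀ I p, Metric.ediam (t I p) ≤ c * (2⁻¹ : ℝ≥0∞) ^ (ν (p.1 + I)) := by
    intro I p
    refine Metric.ediam_le ?_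
    rintro _ ⟨x, hx, rfl⟩ _ ⟨x', hx', rfl⟩
    exact hg _ _ _ (hx.trans hx'.symm)
  have hcr : c ^ r ≠ ∞ := ENNReal.rpow_ne_top_of_nonneg hr.le hc
  have h1 := Measure.hausdorffMeasure_le_liminf_tsum (X := E) (β := ℕ)
    (ι := fun I => Σ i : ℕ, {τ // τ ∈ T (i + I)}) r (g '' X) (l := atTop)
    (fun I => c * (S I) ^ (1 / r)) (by
      have h2 : Tendsto (fun I => c * (S I) ^ (1 / r)) atTop (𝓝 (c * (0 : ℝ≥0∞) ^ (1 / r))) := by
        refine ENNReal.Tendsto.const_mul ?_ (Or.inr hc)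
        exact (ENNReal.continuous_rpow_const.tendsto _).comp hS
      rw [ENNReal.zero_rpow_of_pos (by positivity), mul_zero] at h2
      exact h2) t (by
      refine Eventually.of_forall fun I p => (hdiam I p).trans ?_
      apply mul_le_mul_right
      have h3 : w ^ (ν (p.1 + I)) ≤ S I := by
        calc w ^ (ν (p.1 + I)) = 1 * w ^ (ν (p.1 + I)) := (one_mul _).symm
          _ ≤ ((T (p.1 + I)).card : ℝ≥0∞) * w ^ (ν (p.1 + I)) := by
              apply mul_le_mul_left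
              exact_mod_cast Finset.card_pos.2 ⟨_, p.2.2⟩
          _ ≤ S I := ENNReal.le_tsum (f := fun i => ((T (i + I)).card : ℝ≥0∞) * w ^ (ν (i + I))) p.1
      calc (2⁻¹ : ℝ≥0∞) ^ (ν (p.1 + I)) = (((2⁻¹ : ℝ≥0∞) ^ (ν (p.1 + I))) ^ r) ^ (1 / r) := by
            rw [← ENNReal.rpow_mul, mul_one_div_cancel hr.ne', ENNReal.rpow_one]
        _ = (w ^ (ν (p.1 + I))) ^ (1 / r) := by rw [pow_rpow_swap]
        _ ≤ (S I) ^ (1 / r) := ENNReal.rpow_le_rpow h3 (by positivity)) (by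
      refine Eventually.of_forall fun I => ?_
      rintro _ ⟨x, hx, rfl⟩
      obtain ⟨j, hj1, hj2⟩ := (frequently_atTop.1 (hX x hx)) I
      rw [Set.mem_iUnion]
      have e : j - I + I = j := by omega
      refine ⟨⟨j - I, ⟨res (ν (j - I + I)) x, by rw [e]; exact hj2⟩⟩, x, rfl, rfl⟩)
  refine le_antisymm (h1.trans ?_) zero_le
  have h4 : ∀ I, ∑' p, Metric.ediam (t I p) ^ r ≤ c ^ r * S I := by
    intro I
    calc ∑' p, Metric.ediam (t I p) ^ r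
        ≤ ∑' p : (Σ i : ℕ, {τ // τ ∈ T (i + I)}), c ^ r * w ^ (ν (p.1 + I)) := by
          refine ENNReal.tsum_le_tsum fun p => ?_
          calc Metric.ediam (t I p) ^ r ≤ (c * (2⁻¹ : ℝ≥0∞) ^ (ν (p.1 + I))) ^ r :=
                ENNReal.rpow_le_rpow (hdiam I p) hr.le
            _ = c ^ r * w ^ (ν (p.1 + I)) := by
                rw [ENNReal.mul_rpow_of_nonneg _ _ hr.le, pow_rpow_swap]
      _ = ∑' i : ℕ, ∑' _ : {τ // τ ∈ T (i + I)}, c ^ r * w ^ (ν (i + I)) := by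
          rw [ENNReal.tsum_sigma']
      _ = ∑' i : ℕ, c ^ r * (((T (i + I)).card : ℝ≥0∞) * w ^ (ν (i + I))) := by
          refine tsum_congr fun i => ?_
          rw [tsum_fintype, Finset.sum_const, nsmul_eq_mul]
          simp only [Finset.card_univ, Fintype.card_coe]
          ring
      _ = c ^ r * S I := by rw [ENNReal.tsum_mul_left]
  have h5 : Tendsto (fun I => c ^ r * S I) atTop (𝓝 0) := by
    have := ENNReal.Tendsto.const_mul (a := c ^ r) hS (Or.inr hcr)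
    rwa [mul_zero] at this
  calc liminf (fun I => ∑' p, Metric.ediam (t I p) ^ r) atTop
      ≤ liminf (fun I => c ^ r * S I) atTop := liminf_le_liminf (Eventually.of_forall h4)
    _ = 0 := h5.liminf_eq

theorem small_of_haus_null {A E : Type} [Fintype A] [MetricSpace E]
    [MeasurableSpace E] [BorelSpace E] (g : (ℕ → A) → E) (Kc : ℕ)
    (hg : ∀ k (U : Set E), Metric.ediam U ≤ (2⁻¹ : ℝ≥0∞) ^ k →
      (Finset.univ.filter (fun τ : Fin k → A => ∃ y, res k y = τ ∧ g y ∈ U)).card ≤ Kc)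
    (s : ℝ) (hs : 0 < s) (Y : Set (ℕ → A)) (hY : Measure.hausdorffMeasure s (g '' Y) = 0) :
    Small ((2 : ℝ) ^ s) Y := by
  have hcov : ∀ j : ℕ, ∃ U : ℕ → Set E, g '' Y ⊆ ⋃ i, U i ∧
      (∀ i, Metric.ediam (U i) ≤ 2⁻¹) ∧
      ∑' i, (Metric.ediam (U i)) ^ s ≤ (2⁻¹ : ℝ≥0∞) ^ j := by
    intro j
    rw [Measure.hausdorffMeasure_apply] at hY
    have h1 := (le_iSup₂ (f := fun (r : ℝ≥0∞) (_ : 0 < r) =>
      ⨅ (t : ℕ → Set E) (_ : g '' Y ⊆ ⋃ n, t n) (_ : ∀ n, Metric.ediam (t n) ≤ r),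
          ∑' n, ⨆ _ : (t n).Nonempty, Metric.ediam (t n) ^ s) (2⁻¹ : ℝ≥0∞) (by simp)).trans hY.le
    have h2 : (⨅ (t : ℕ → Set E) (_ : g '' Y ⊆ ⋃ n, t n) (_ : ∀ n, Metric.ediam (t n) ≤ 2⁻¹),
          ∑' n, ⨆ _ : (t n).Nonempty, Metric.ediam (t n) ^ s) < (2⁻¹ : ℝ≥0∞) ^ j :=
      lt_of_le_of_lt h1 (by simp [pos_iff_ne_zero])
    simp only [iInf_lt_iff] at h2
    obtain ⟨t, ht1, ht2, ht3⟩ := h2
    refine ⟨t, ht1, ht2, le_trans (ENNReal.tsum_le_tsum fun i => ?_) ht3.le⟩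
    rcases (t i).eq_empty_or_nonempty with h | h
    · rw [h]
      simp [hs]
    · simp [h]
  choose U hU1 hU2 hU3 using hcov
  -- the auxiliary lengths
  have hk : ∀ j i, ∃ k : ℕ, Metric.ediam (U j i) ≤ (2⁻¹ : ℝ≥0∞) ^ k ∧
      ((2⁻¹ : ℝ≥0∞) ^ k) ^ s ≤ 2 ^ s * ((Metric.ediam (U j i)) ^ s + (2⁻¹ : ℝ≥0∞) ^ (i + j)) := by
    intro j i
    -- epsilon
    obtain ⟨N, hN⟩ : ∃ N : ℕ, ((2⁻¹ : ℝ≥0∞) ^ N) ^ s ≤ (2⁻¹ : ℝ≥0∞) ^ (i + j) := by
      have h1 : Tendsto (fun N : ℕ => ((2⁻¹ : ℝ≥0∞) ^ N) ^ s) atTop (𝓝 ((0 : ℝ≥0∞) ^ s)) :=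
        (ENNReal.continuous_rpow_const.tendsto _).comp
          (ENNReal.tendsto_pow_atTop_nhds_zero_of_lt_one (by norm_num))
      rw [ENNReal.zero_rpow_of_pos hs] at h1
      have h2 := (h1.eventually (gt_mem_nhds (show (0 : ℝ≥0∞) < (2⁻¹ : ℝ≥0∞) ^ (i + j) by
        simp [pos_iff_ne_zero]))).exists
      obtain ⟨N, hN⟩ := h2
      exact ⟨N, hN.le⟩
    by_cases hex : ∃ k : ℕ, (2⁻¹ : ℝ≥0∞) ^ k < Metric.ediam (U j i)
    · -- least such k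
      set k := Nat.find hex with hkdef
      have hk1 := Nat.find_spec hex
      have hk0 : k ≠ 0 := by
        intro h0
        rw [← hkdef, h0, pow_zero] at hk1
        have := hk1.trans_le (hU2 j i)
        norm_num at this
      obtain ⟨k', hk'⟩ := Nat.exists_eq_succ_of_ne_zero hk0
      have hk2 : ¬ (2⁻¹ : ℝ≥0∞) ^ k' < Metric.ediam (U j i) := Nat.find_min hex (by omega)
      refine ⟨k', not_lt.1 hk2, ?_⟩
      have h3 : (2⁻¹ : ℝ≥0∞) ^ k' ≤ 2 * Metric.ediam (U j i) := by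
        have h4 : (2⁻¹ : ℝ≥0∞) ^ k' = 2 * (2⁻¹ : ℝ≥0∞) ^ (k' + 1) := by
          rw [pow_succ, mul_comm ((2⁻¹ : ℝ≥0∞) ^ k'), ← mul_assoc,
            ENNReal.mul_inv_cancel (by norm_num) (by norm_num), one_mul]
        rw [h4]
        apply mul_le_mul_right
        rw [← hkdef, hk'] at hk1
        exact hk1.le
      calc ((2⁻¹ : ℝ≥0∞) ^ k') ^ s ≤ (2 * Metric.ediam (U j i)) ^ s :=
            ENNReal.rpow_le_rpow h3 hs.le
        _ = 2 ^ s * (Metric.ediam (U j i)) ^ s := ENNReal.mul_rpow_of_nonneg _ _ hs.le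
        _ ≤ _ := by
            apply mul_le_mul_right
            exact le_self_add
    · push Not at hex
      refine ⟨N, hex N, hN.trans ?_⟩
      calc (2⁻¹ : ℝ≥0∞) ^ (i + j) ≤ (Metric.ediam (U j i)) ^ s + (2⁻¹ : ℝ≥0∞) ^ (i + j) :=
            le_add_self
        _ = 1 * ((Metric.ediam (U j i)) ^ s + (2⁻¹ : ℝ≥0∞) ^ (i + j)) := (one_mul _).symm
        _ ≤ _ := by
            apply mul_le_mul_left
            exact ENNReal.one_le_rpow (by norm_num) hs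
  choose k hk1 hk2 using hk
  refine ⟨fun t => k t.unpair.1 t.unpair.2, fun t =>
    Finset.univ.filter (fun τ : Fin (k t.unpair.1 t.unpair.2) → A =>
      ∃ y, res _ y = τ ∧ g y ∈ U t.unpair.1 t.unpair.2), ?_, ?_⟩
  · -- summability
    have hsum1 : ∑' p : ℕ × ℕ, (((2⁻¹ : ℝ≥0∞) ^ (k p.1 p.2)) ^ s) ≠ ∞ := by
      have h1 : ∑' p : ℕ × ℕ, (((2⁻¹ : ℝ≥0∞) ^ (k p.1 p.2)) ^ s) ≤
          ∑' j : ℕ, ∑' i : ℕ, 2 ^ s * ((Metric.ediam (U j i)) ^ s + (2⁻¹ : ℝ≥0∞) ^ (i + j)) := by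
        rw [ENNReal.tsum_prod']
        exact ENNReal.tsum_le_tsum fun j => ENNReal.tsum_le_tsum fun i => hk2 j i
      have h2 : ∀ j : ℕ, ∑' i : ℕ, 2 ^ s * ((Metric.ediam (U j i)) ^ s +
          (2⁻¹ : ℝ≥0∞) ^ (i + j)) ≤ 2 ^ s * 3 * (2⁻¹ : ℝ≥0∞) ^ j := by
        intro j
        rw [ENNReal.tsum_mul_left, ENNReal.tsum_add, mul_assoc]
        apply mul_le_mul_right
        have h3 : ∑' i : ℕ, (2⁻¹ : ℝ≥0∞) ^ (i + j) = 2 * (2⁻¹ : ℝ≥0∞) ^ j := by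
          simp_rw [pow_add]
          rw [ENNReal.tsum_mul_right, ENNReal.tsum_geometric]
          congr 1
          rw [ENNReal.one_sub_inv_two, inv_inv]
        rw [h3]
        calc ∑' i : ℕ, (Metric.ediam (U j i)) ^ s + 2 * (2⁻¹ : ℝ≥0∞) ^ j
            ≤ (2⁻¹ : ℝ≥0∞) ^ j + 2 * (2⁻¹ : ℝ≥0∞) ^ j := add_le_add_left (hU3 j) _
          _ = 3 * (2⁻¹ : ℝ≥0∞) ^ j := by ring
      have h4 : ∑' j : ℕ, 2 ^ s * 3 * (2⁻¹ : ℝ≥0∞) ^ j ≠ ∞ := by
        rw [ENNReal.tsum_mul_left, ENNReal.tsum_geometric, ENNReal.one_sub_inv_two, inv_inv]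
        refine ENNReal.mul_ne_top (ENNReal.mul_ne_top ?_ (by norm_num)) (by norm_num)
        exact ENNReal.rpow_ne_top_of_nonneg hs.le (by norm_num)
      exact ne_top_of_le_ne_top h4 (h1.trans (ENNReal.tsum_le_tsum h2))
    have hreal : ∀ p : ℕ × ℕ, (((2⁻¹ : ℝ≥0∞) ^ (k p.1 p.2)) ^ s).toReal =
        (((2 : ℝ) ^ s)⁻¹) ^ (k p.1 p.2) := by
      intro p
      rw [pow_rpow_swap, w_eq, ENNReal.toReal_pow, ENNReal.toReal_ofReal (by positivity)]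
    have hsum2 : Summable (fun p : ℕ × ℕ => (((2 : ℝ) ^ s)⁻¹) ^ (k p.1 p.2)) := by
      have := ENNReal.summable_toReal hsum1
      simpa only [hreal] using this
    have hsum3 : Summable (fun t : ℕ => (((2 : ℝ) ^ s)⁻¹) ^ (k t.unpair.1 t.unpair.2)) :=
      (Nat.pairEquiv.symm.summable_iff (f := fun p : ℕ × ℕ => (((2 : ℝ) ^ s)⁻¹) ^ (k p.1 p.2))).2
        hsum2
    refine Summable.of_nonneg_of_le (fun t => by positivity) (fun t => ?_)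
      (hsum3.mul_left (Kc : ℝ))
    apply mul_le_mul_of_nonneg_right _ (by positivity)
    exact_mod_cast hg _ _ (hk1 _ _)
  · intro y hy
    rw [frequently_atTop]
    intro j
    obtain ⟨i, hi⟩ := Set.mem_iUnion.1 (hU1 j ⟨y, hy, rfl⟩)
    refine ⟨Nat.pair j i, Nat.left_le_pair j i, Finset.mem_filter.2 ⟨Finset.mem_univ _, y, rfl, ?_⟩⟩
    simpa only [Nat.unpair_pair] using hi

end Pool.Agent.Q302.HU
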