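import Mathlib
import Pool.Agent.Q302.HU.Haus
import Pool.Agent.Q302.HM.Digits

/-!
Transfer between sequences and Euclidean spaces.
-/

set_option maxHeartbeats 1000000

namespace Pool.Agent.Q302.HU

open Filter MeasureTheory
open Pool.Agent.Q302.HM (v v_succ v_nonneg v_le v_diff v_dist_le sh dg F v_F)
open scoped Classical Topology ENNReal NNReal

/-- the map from sequences of bit vectors to points -/
noncomputable def ev {n : ℕ} (z : Fin n → ℤ) (x : ℕ → (Fin n → Bool)) :
    EuclideanSpace ℝ (Fin n) :=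
  WithLp.toLp 2 (fun j => v (fun t => x t j) + z j)

theorem ev_apply {n : ℕ} (z : Fin n → ℤ) (x : ℕ → (Fin n → Bool)) (j : Fin n) :
    ev z x j = v (fun t => x t j) + z j := rfl

theorem v_close : ∀ (k : ℕ) (y y' : ℕ → Bool), (∀ t < k, y t = y' t) →
    |v y - v y'| ≤ (1 / 2) ^ k := by
  intro k
  induction k with
  | zero =>
    intro y y' _
    simpa using v_dist_le y y'
  | succ k ih =>
    intro y y' h
    rw [v_diff (h 0 (by omega)), pow_succ]
    have := ih (sh y) (sh y') (fun t ht => h (t + 1) (by omega))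
    linarith

theorem ev_edist {n : ℕ} (z : Fin n → ℤ) (k : ℕ) (x x' : ℕ → (Fin n → Bool))
    (h : res k x = res k x') :
    edist (ev z x) (ev z x') ≤ ENNReal.ofReal (Real.sqrt n) * (2⁻¹ : ℝ≥0∞) ^ k := by
  have h1 : dist (ev z x) (ev z x') ≤ Real.sqrt n * (1 / 2) ^ k := by
    rw [EuclideanSpace.dist_eq]
    have h2 : ∑ i, dist (ev z x i) (ev z x' i) ^ 2 ≤ n * ((1 / 2) ^ k) ^ 2 := by
      calc ∑ i, dist (ev z x i) (ev z x' i) ^ 2 ≤ ∑ _i : Fin n, ((1 / 2 : ℝ) ^ k) ^ 2 := by
            apply Finset.sum_le_sum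
            intro i _
            apply pow_le_pow_left₀ dist_nonneg
            rw [ev_apply, ev_apply, Real.dist_eq, add_sub_add_right_eq_sub]
            apply v_close
            intro t ht
            exact congrFun (congrFun h ⟨t, ht⟩) i
        _ = n * ((1 / 2) ^ k) ^ 2 := by
            rw [Finset.sum_const, Finset.card_univ, Fintype.card_fin, nsmul_eq_mul]
    calc Real.sqrt (∑ i, dist (ev z x i) (ev z x' i) ^ 2)
        ≤ Real.sqrt (n * ((1 / 2) ^ k) ^ 2) := Real.sqrt_le_sqrt h2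
      _ = Real.sqrt n * (1 / 2) ^ k := by
          rw [Real.sqrt_mul (by positivity), Real.sqrt_sq (by positivity)]
  rw [edist_dist]
  refine (ENNReal.ofReal_le_ofReal h1).trans (le_of_eq ?_)
  rw [ENNReal.ofReal_mul (Real.sqrt_nonneg _), ENNReal.ofReal_pow (by norm_num)]
  congr 2
  rw [one_div, ENNReal.ofReal_inv_of_pos (by norm_num)]
  simp

/-- integer part of `2^k v y` -/
def ak : ℕ → (ℕ → Bool) → ℕ
  | 0, _ => 0
  | (k + 1), y => 2 ^ k * (if y 0 = true then 1 else 0) + ak k (sh y)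

theorem ak_spec : ∀ (k : ℕ) (y : ℕ → Bool),
    (ak k y : ℝ) ≤ 2 ^ k * v y ∧ 2 ^ k * v y ≤ ak k y + 1 := by
  intro k
  induction k with
  | zero =>
    intro y
    have := v_nonneg y
    have := v_le y
    simp only [ak, pow_zero, one_mul, Nat.cast_zero, zero_add]
    exact ⟨by assumption, by assumption⟩
  | succ k ih =>
    intro y
    obtain ⟨h1, h2⟩ := ih (sh y)
    have e : (2 : ℝ) ^ (k + 1) * v y = 2 ^ k * dg (y 0) + 2 ^ k * v (sh y) := by
      rw [v_succ y, pow_succ]
      ring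
    have e2 : (ak (k + 1) y : ℝ) = 2 ^ k * dg (y 0) + ak k (sh y) := by
      simp only [ak]
      push_cast
      cases y 0 <;> simp [dg]
    rw [e, e2]
    constructor <;> linarith

theorem ak_lt : ∀ (k : ℕ) (y : ℕ → Bool), ak k y < 2 ^ k := by
  intro k
  induction k with
  | zero => intro y; simp [ak]
  | succ k ih =>
    intro y
    have := ih (sh y)
    simp only [ak]
    split_ifs <;> rw [pow_succ] <;> omega

theorem ak_inj : ∀ (k : ℕ) (y y' : ℕ → Bool), ak k y = ak k y' → ∀ t < k, y t = y' t := by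
  intro k
  induction k with
  | zero => intro y y' _ t ht; omega
  | succ k ih =>
    intro y y' h t ht
    have h1 := ak_lt k (sh y)
    have h2 := ak_lt k (sh y')
    simp only [ak] at h
    have h0 : y 0 = y' 0 := by
      rcases hy : y 0 <;> rcases hy' : y' 0 <;> simp [hy, hy'] at h ⊢ <;> omega
    rw [h0] at h
    have h3 : ak k (sh y) = ak k (sh y') := by omega
    rcases t with _ | t
    · exact h0
    · exact ih _ _ h3 t (by omega)

theorem ev_count {n : ℕ} (z : Fin n → ℤ) (k : ℕ) (U : Set (EuclideanSpace ℝ (Fin n)))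
    (hU : Metric.ediam U ≤ (2⁻¹ : ℝ≥0∞) ^ k) :
    (Finset.univ.filter (fun τ : Fin k → (Fin n → Bool) =>
      ∃ y, res k y = τ ∧ ev z y ∈ U)).card ≤ 5 ^ n := by
  set S := Finset.univ.filter (fun τ : Fin k → (Fin n → Bool) =>
      ∃ y, res k y = τ ∧ ev z y ∈ U) with hS
  rcases S.eq_empty_or_nonempty with h | ⟨τ0, hτ0⟩
  · rw [h]; simp
  obtain ⟨y0, -, hy0⟩ := (Finset.mem_filter.1 hτ0).2
  have hch : ∀ τ : Fin k → (Fin n → Bool), ∃ y : ℕ → (Fin n → Bool), τ ∈ S →
      res k y = τ ∧ ev z y ∈ U := by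
    intro τ
    by_cases hτ : τ ∈ S
    · obtain ⟨y, hy⟩ := (Finset.mem_filter.1 hτ).2
      exact ⟨y, fun _ => hy⟩
    · exact ⟨y0, fun h => absurd h hτ⟩
  choose Y hY using hch
  let φ : (Fin k → (Fin n → Bool)) → (Fin n → ℕ) := fun τ j => ak k (fun t => Y τ t j)
  let B : Finset (Fin n → ℕ) := Fintype.piFinset (fun j =>
    Finset.Icc (ak k (fun t => y0 t j) - 2) (ak k (fun t => y0 t j) + 2))
  have h1 : S.card ≤ B.card := by
    refine Finset.card_le_card_of_injOn φ ?_ ?_
    · intro τ hτ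
      obtain ⟨-, hτU⟩ := hY τ hτ
      rw [Finset.mem_coe, Fintype.mem_piFinset]
      intro j
      have hd : |v (fun t => Y τ t j) - v (fun t => y0 t j)| ≤ (1 / 2) ^ k := by
        have h2 : edist (ev z (Y τ)) (ev z y0) ≤ (2⁻¹ : ℝ≥0∞) ^ k :=
          (Metric.edist_le_ediam_of_mem hτU hy0).trans hU
        have h3 : dist (ev z (Y τ)) (ev z y0) ≤ (1 / 2) ^ k := by
          rw [edist_dist] at h2
          have e : (2⁻¹ : ℝ≥0∞) ^ k = ENNReal.ofReal ((1 / 2) ^ k) := by
            rw [ENNReal.ofReal_pow (by norm_num), one_div,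
              ENNReal.ofReal_inv_of_pos (by norm_num)]
            simp
          rw [e, ENNReal.ofReal_le_ofReal_iff (by positivity)] at h2
          exact h2
        have h4 : ‖(ev z (Y τ) - ev z y0) j‖ ≤ ‖ev z (Y τ) - ev z y0‖ :=
          PiLp.norm_apply_le _ _
        rw [dist_eq_norm] at h3
        have h5 := h4.trans h3
        have e2 : (ev z (Y τ) - ev z y0) j = v (fun t => Y τ t j) - v (fun t => y0 t j) := by
          rw [PiLp.sub_apply, ev_apply, ev_apply]
          ring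
        rw [e2, Real.norm_eq_abs] at h5
        exact h5
      obtain ⟨a1, a2⟩ := ak_spec k (fun t => Y τ t j)
      obtain ⟨b1, b2⟩ := ak_spec k (fun t => y0 t j)
      have hp : (2 : ℝ) ^ k * (1 / 2) ^ k = 1 := by
        rw [← mul_pow]; norm_num
      have hpos : (0 : ℝ) < 2 ^ k := by positivity
      rw [abs_le] at hd
      have c1 : 2 ^ k * v (fun t => Y τ t j) ≤ 2 ^ k * v (fun t => y0 t j) + 1 := by
        nlinarith [hd.2]
      have c2 : 2 ^ k * v (fun t => y0 t j) ≤ 2 ^ k * v (fun t => Y τ t j) + 1 := by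
        nlinarith [hd.1]
      have d1 : (ak k (fun t => Y τ t j) : ℝ) ≤ ak k (fun t => y0 t j) + 2 := by linarith
      have d2 : (ak k (fun t => y0 t j) : ℝ) ≤ ak k (fun t => Y τ t j) + 2 := by linarith
      have d1' : ak k (fun t => Y τ t j) ≤ ak k (fun t => y0 t j) + 2 := by exact_mod_cast d1
      have d2' : ak k (fun t => y0 t j) ≤ ak k (fun t => Y τ t j) + 2 := by exact_mod_cast d2
      rw [Finset.mem_Icc]
      refine ⟨?_, d1'⟩
      change ak k (fun t => y0 t j) - 2 ≤ ak k (fun t => Y τ t j)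
      omega
    · intro τ hτ τ' hτ' h
      rw [← (hY τ hτ).1, ← (hY τ' hτ').1]
      funext t j
      have := congrFun h j
      exact ak_inj k _ _ this t t.2
  refine h1.trans ?_
  rw [Fintype.card_piFinset]
  calc ∏ j : Fin n, (Finset.Icc (ak k (fun t => y0 t j) - 2) (ak k (fun t => y0 t j) + 2)).card
      ≤ ∏ _j : Fin n, 5 := by
        apply Finset.prod_le_prod' 
        intro j _
        rw [Nat.card_Icc]
        omega
    _ = 5 ^ n := by simp

/-- the inverse map -/
noncomputable def dig {n : ℕ} (z : Fin n → ℤ) (p : EuclideanSpace ℝ (Fin n)) :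
    ℕ → (Fin n → Bool) := fun t j => F (p j - z j) t

theorem ev_dig {n : ℕ} (z : Fin n → ℤ) (p : EuclideanSpace ℝ (Fin n)) (hp : ∀ j, ⌊p j⌋ = z j) :
    ev z (dig z p) = p := by
  ext j
  rw [ev_apply]
  unfold dig
  rw [v_F]
  · ring
  · have h1 := Int.floor_le (p j)
    have h2 := Int.lt_floor_add_one (p j)
    rw [hp j] at h1 h2
    constructor <;> linarith

theorem card_all {α : Type} (S : Set α) (κ : Cardinal.{0}) (hκ : Cardinal.aleph0 ≤ κ)
    (hS : Cardinal.mk S ≤ κ) : ∀ j, Cardinal.mk {w : Tup α j | Tup.All S j w} ≤ κ := by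
  intro j
  induction j with
  | zero =>
    have : Subsingleton (Tup α 0) := inferInstanceAs (Subsingleton Unit)
    exact (Cardinal.le_one_iff_subsingleton.2 inferInstance).trans
      (Cardinal.one_lt_aleph0.le.trans hκ)
  | succ j ih =>
    have h1 : Cardinal.mk {w : Tup α (j + 1) | Tup.All S (j + 1) w} ≤
        Cardinal.mk (S × {w : Tup α j | Tup.All S j w}) := by
      refine Cardinal.mk_le_of_injective
        (f := fun w : {w : Tup α (j + 1) | Tup.All S (j + 1) w} =>
          ((⟨w.1.1, w.2.1⟩ : S), (⟨w.1.2, w.2.2⟩ : {w : Tup α j | Tup.All S j w}))) ?_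
      rintro ⟨⟨a, w⟩, h⟩ ⟨⟨a', w'⟩, h'⟩ heq
      simp only [Prod.mk.injEq, Subtype.mk.injEq] at heq
      obtain ⟨rfl, rfl⟩ := heq
      rfl
    refine h1.trans ?_
    rw [Cardinal.mk_prod, Cardinal.lift_id, Cardinal.lift_id]
    exact (mul_le_mul' hS ih).trans (Cardinal.mul_eq_self hκ).le

theorem transfer (n n' : ℕ) (r s : ℝ) (hr : 0 < r) (hrn : r < n) (hs : 0 < s) (hsn : s < n')
    (X : Set (EuclideanSpace ℝ (Fin n))) (hX : Measure.hausdorffMeasure r X ≠ 0) :
    ∃ Y : Set (EuclideanSpace ℝ (Fin n')), Cardinal.mk Y ≤ Cardinal.mk X ∧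
      Measure.hausdorffMeasure s Y ≠ 0 := by
  have hn : 1 ≤ n := by
    by_contra h
    have : n = 0 := by omega
    rw [this] at hrn
    simp at hrn
    linarith
  -- a cube
  obtain ⟨z, hz⟩ : ∃ z : Fin n → ℤ,
      Measure.hausdorffMeasure r (X ∩ {p | ∀ j, ⌊p j⌋ = z j}) ≠ 0 := by
    by_contra hcon
    push Not at hcon
    apply hX
    have h1 := measure_iUnion_null hcon
    refine measure_mono_null (fun p hp => ?_) h1
    exact Set.mem_iUnion.2 ⟨fun j => ⌊p j⌋, hp, fun j => rfl⟩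
  set Xz := X ∩ {p | ∀ j, ⌊p j⌋ = z j} with hXz
  set X' := dig z '' Xz with hX'
  have hev : ev z '' X' = Xz := by
    ext p
    constructor
    · rintro ⟨_, ⟨q, hq, rfl⟩, rfl⟩
      rw [ev_dig z q hq.2]
      exact hq
    · intro hp
      exact ⟨dig z p, ⟨p, hp, rfl⟩, ev_dig z p hp.2⟩
  have hX's : ¬ Small ((2 : ℝ) ^ r) X' := by
    intro hsm
    apply hz
    rw [← hev]
    exact haus_null_of_small (ev z) (ENNReal.ofReal (Real.sqrt n)) ENNReal.ofReal_ne_top
      (fun k x x' h => ev_edist z k x x' h) r hr X' hsm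
  have hXinf : Cardinal.aleph0 ≤ Cardinal.mk X := by
    by_contra hc
    rw [not_le, Cardinal.lt_aleph0_iff_set_finite] at hc
    apply hX
    have := Measure.nullSingletonClass_hausdorff (EuclideanSpace ℝ (Fin n)) hr
    exact hc.measure_zero _
  have hX'card : Cardinal.mk X' ≤ Cardinal.mk X :=
    Cardinal.mk_image_le.trans (Cardinal.mk_le_mk_of_subset Set.inter_subset_left)
  have h2r : 1 < (2 : ℝ) ^ r := Real.one_lt_rpow (by norm_num) hr
  have h2s : 1 ≤ (2 : ℝ) ^ s := (Real.one_lt_rpow (by norm_num) hs).le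
  have h2s' : (2 : ℝ) ^ s < Fintype.card (Fin n' → Bool) := by
    rw [Fintype.card_fun, Fintype.card_fin, Fintype.card_bool]
    push_cast
    rw [← Real.rpow_natCast]
    exact Real.rpow_lt_rpow_of_exponent_lt (by norm_num) hsn
  have hA : 2 ≤ Fintype.card (Fin n → Bool) := by
    rw [Fintype.card_fun, Fintype.card_fin, Fintype.card_bool]
    calc 2 = 2 ^ 1 := by norm_num
      _ ≤ 2 ^ n := Nat.pow_le_pow_right (by norm_num) hn
  obtain ⟨m, f, hf⟩ := main_seq (A := Fin n → Bool) (A' := Fin n' → Bool) hA _ _ h2r h2s h2s'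
  set Y0 := f '' {x | Tup.All X' m x} with hY0
  have hY0s : ¬ Small ((2 : ℝ) ^ s) Y0 := by
    intro hsm
    obtain ⟨x, hx1, hx2⟩ := hf X' hX's Y0 hsm
    exact hx2 ⟨x, hx1, rfl⟩
  refine ⟨ev (fun _ => 0) '' Y0, ?_, ?_⟩
  · refine Cardinal.mk_image_le.trans (Cardinal.mk_image_le.trans ?_)
    exact card_all X' (Cardinal.mk X) hXinf hX'card m
  · intro h0
    exact hY0s (small_of_haus_null (ev (fun _ => 0)) (5 ^ n')
      (fun k U hU => ev_count _ k U hU) s hs Y0 h0)

end Pool.Agent.Q302.HU
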