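import Mathlib
import Pool.Agent.Q302.HU.Euclid

/-!
Hausdorff measures and uniformity numbers as in the problem file of MP_eebbd0_lc.
-/

namespace Pool.Agent.Q302.HU

open Filter MeasureTheory
open scoped Topology ENNReal NNReal

/-- infimum of `∑ (diam U_i)^t` over countable covers of `A` by sets of diameter `< δ` -/
noncomputable def Hdelta {n : ℕ} (t : ℝ) (δ : ℝ≥0) (A : Set (EuclideanSpace ℝ (Fin n))) : ℝ≥0∞ :=
  ⨅ (U : ℕ → Set (EuclideanSpace ℝ (Fin n))) (_ : A ⊆ ⋃ i, U i)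
    (_ : ∀ i, Metric.ediam (U i) < δ), ∑' i, Metric.ediam (U i) ^ t

/-- the `t`-dimensional Hausdorff measure: the supremum (= limit as `δ → 0+`) of `Hdelta` -/
noncomputable def H {n : ℕ} (t : ℝ) (A : Set (EuclideanSpace ℝ (Fin n))) : ℝ≥0∞ :=
  ⨆ (δ : ℝ≥0) (_ : 0 < δ), Hdelta t δ A

/-- the uniformity number `non(N^t_n)`: the least cardinality of a subset of `ℝ^n` of positive
`t`-dimensional Hausdorff measure -/
noncomputable def nonH (n : ℕ) (t : ℝ) : Cardinal.{0} :=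
  sInf {c | ∃ X : Set (EuclideanSpace ℝ (Fin n)), Cardinal.mk X = c ∧ H t X ≠ 0}

/-- sanity check: `H` is the limit of `Hdelta` as `δ → 0+`. -/
theorem tendsto_Hdelta {n : ℕ} (t : ℝ) (A : Set (EuclideanSpace ℝ (Fin n))) :
    Tendsto (fun δ => Hdelta t δ A) (𝓝[>] 0) (𝓝 (H t A)) := by
  have hanti : Antitone (fun δ : ℝ≥0 => Hdelta t δ A) := by
    intro δ δ' h
    refine le_iInf fun U => le_iInf fun h1 => le_iInf fun h2 => ?_
    exact iInf_le_of_le U (iInf_le_of_le h1 (iInf_le_of_le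
      (fun n => (h2 n).trans_le (by exact_mod_cast h)) le_rfl))
  refine tendsto_order.2 ⟨fun a ha => ?_, fun a ha => ?_⟩
  · obtain ⟨δ, hδ⟩ := lt_iSup_iff.1 ha
    obtain ⟨hδ0, hδ1⟩ := lt_iSup_iff.1 hδ
    filter_upwards [Ioo_mem_nhdsGT hδ0] with ε hε
    exact hδ1.trans_le (hanti hε.2.le)
  · filter_upwards [self_mem_nhdsWithin] with ε hε
    exact lt_of_le_of_lt (le_iSup₂ (f := fun (δ : ℝ≥0) (_ : 0 < δ) => Hdelta t δ A) ε hε) ha

theorem H_eq {n : ℕ} (t : ℝ) (ht : 0 < t) (A : Set (EuclideanSpace ℝ (Fin n))) :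
    H t A = Measure.hausdorffMeasure t A := by
  rw [Measure.hausdorffMeasure_apply]
  have key : ∀ s : Set (EuclideanSpace ℝ (Fin n)),
      (⨆ _ : s.Nonempty, Metric.ediam s ^ t) = Metric.ediam s ^ t := by
    intro s
    rcases s.eq_empty_or_nonempty with rfl | hne
    · simp [ht]
    · simp [hne]
  simp_rw [key]
  unfold H Hdelta
  refine le_antisymm ?_ ?_
  · refine iSup₂_le fun δ hδ => ?_
    have hpos : (0 : ℝ≥0∞) < ((δ / 2 : ℝ≥0) : ℝ≥0∞) := by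
      exact_mod_cast half_pos hδ
    refine le_trans ?_ (le_iSup₂ (f := fun (r : ℝ≥0∞) (_ : 0 < r) =>
      ⨅ (U : ℕ → Set (EuclideanSpace ℝ (Fin n))) (_ : A ⊆ ⋃ i, U i)
        (_ : ∀ i, Metric.ediam (U i) ≤ r), ∑' i, Metric.ediam (U i) ^ t)
      (((δ / 2 : ℝ≥0) : ℝ≥0∞)) hpos)
    refine le_iInf fun U => le_iInf fun h1 => le_iInf fun h2 => ?_
    have hlt : ((δ / 2 : ℝ≥0) : ℝ≥0∞) < (δ : ℝ≥0∞) := by
      exact_mod_cast half_lt_self hδ
    exact iInf_le_of_le U (iInf_le_of_le h1 (iInf_le_of_le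
      (fun i => (h2 i).trans_lt hlt) le_rfl))
  · refine iSup₂_le fun r hr => ?_
    have hm : min r 1 ≠ ∞ := ne_top_of_le_ne_top ENNReal.one_ne_top (min_le_right _ _)
    have hm0 : 0 < min r 1 := lt_min hr one_pos
    refine le_trans ?_ (le_iSup₂ (f := fun (δ : ℝ≥0) (_ : 0 < δ) =>
      ⨅ (U : ℕ → Set (EuclideanSpace ℝ (Fin n))) (_ : A ⊆ ⋃ i, U i)
        (_ : ∀ i, Metric.ediam (U i) < δ), ∑' i, Metric.ediam (U i) ^ t) (min r 1).toNNReal
      (ENNReal.toNNReal_pos hm0.ne' hm))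
    refine le_iInf fun U => le_iInf fun h1 => le_iInf fun h2 => ?_
    rw [ENNReal.coe_toNNReal hm] at h2
    exact iInf_le_of_le U (iInf_le_of_le h1 (iInf_le_of_le
      (fun i => ((h2 i).le.trans (min_le_left _ _))) le_rfl))

theorem nonH_set_nonempty (n : ℕ) (t : ℝ) (ht : 0 < t) (htn : t < n) :
    {c | ∃ X : Set (EuclideanSpace ℝ (Fin n)), Cardinal.mk X = c ∧ H t X ≠ 0}.Nonempty := by
  refine ⟨_, Set.univ, rfl, ?_⟩
  rw [H_eq t ht]
  have h1 : dimH (Set.univ : Set (EuclideanSpace ℝ (Fin n))) = n := by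
    rw [Real.dimH_univ_eq_finrank]
    simp
  have h2 : ((t.toNNReal : ℝ≥0) : ℝ≥0∞) < dimH (Set.univ : Set (EuclideanSpace ℝ (Fin n))) := by
    rw [h1]
    have : t.toNNReal < (n : ℝ≥0) := by
      rw [Real.toNNReal_lt_iff_lt_coe ht.le]
      exact_mod_cast htn
    exact_mod_cast this
  have h3 := hausdorffMeasure_of_lt_dimH h2
  rw [Real.coe_toNNReal t ht.le] at h3
  rw [h3]
  exact ENNReal.top_ne_zero

theorem nonH_le (n n' : ℕ) (r s : ℝ) (hr : 0 < r) (hrn : r < n) (hs : 0 < s) (hsn : s < n') :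
    nonH n' s ≤ nonH n r := by
  obtain ⟨X, hX1, hX2⟩ := csInf_mem (nonH_set_nonempty n r hr hrn)
  rw [H_eq r hr] at hX2
  obtain ⟨Y, hY1, hY2⟩ := transfer n n' r s hr hrn hs hsn X hX2
  have h1 : nonH n' s ≤ Cardinal.mk Y := csInf_le' ⟨Y, rfl, by rw [H_eq s hs]; exact hY2⟩
  calc nonH n' s ≤ Cardinal.mk Y := h1
    _ ≤ Cardinal.mk X := hY1
    _ = nonH n r := hX1

end Pool.Agent.Q302.HU
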